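import Mathlib

/-!
# Cubic extensions `K = k(θ)`, `θ³ - 3 θ = t`, `t² + m s² = 4`: traces and a basis

MP_5f2860_nt.
-/

set_option autoImplicit false
set_option linter.unusedSectionVars false

open Module Polynomial

namespace Pool.Agent.LeoC.H68

variable {k K : Type} [Field k] [CharZero k] [Field K] [Algebra k K]

/-- The trace of an element outside `k` of a cubic extension. -/
lemma trace_cubic (h3 : finrank k K = 3) {x : K} (hx : ∀ y : k, algebraMap k K y ≠ x) {a b c : k}
    (h : x ^ 3 + algebraMap k K a * x ^ 2 + algebraMap k K b * x + algebraMap k K c = 0) :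
    Algebra.trace k K x = -a := by
  have hfd : FiniteDimensional k K := FiniteDimensional.of_finrank_pos (by omega)
  have hint : IsIntegral k x := Algebra.IsIntegral.isIntegral x
  set p : k[X] := X ^ 3 + C a * X ^ 2 + C b * X + C c with hp
  have hpn : p.natDegree = 3 := by rw [hp]; compute_degree!
  have hpm : p.Monic := by rw [hp]; monicity!
  have hpx : aeval x p = 0 := by
    rw [hp]; simp only [map_add, map_mul, map_pow, aeval_X, aeval_C]; exact h
  have hdeg : (minpoly k x).natDegree = 3 := by
    have hd : (minpoly k x).natDegree ∣ 3 := by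
      rw [← h3]
      exact minpoly.degree_dvd hint
    rcases (Nat.dvd_prime Nat.prime_three).1 hd with h1 | h1
    · exfalso
      have := (minpoly.natDegree_eq_one_iff (A := k) (x := x)).1 h1
      obtain ⟨y, hy⟩ := this
      exact hx y hy
    · exact h1
  have heq : minpoly k x = p := by
    have hdvd : minpoly k x ∣ p := minpoly.dvd k x hpx
    exact (Polynomial.eq_of_monic_of_dvd_of_natDegree_le (minpoly.monic hint) hpm hdvd
      (by rw [hpn, hdeg])).symm
  have h1 : finrank (IntermediateField.adjoin k {x}) K = 1 := by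
    have h2 := IntermediateField.adjoin.finrank hint
    have h4 := finrank_mul_finrank k (IntermediateField.adjoin k {x}) K
    rw [h2, hdeg, h3] at h4
    omega
  rw [trace_eq_finrank_mul_minpoly_nextCoeff, h1, heq]
  have : p.nextCoeff = a := by
    rw [nextCoeff_of_natDegree_pos (by omega), hpn, hp]
    simp
  rw [this]
  simp

/-- The cubic extensions of the family. -/
structure Cub (m t s : k) (θ : K) : Prop where
  deg : finrank k K = 3
  root : θ ^ 3 - 3 * θ = algebraMap k K t
  rel : t ^ 2 + m * s ^ 2 = 4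
  s0 : s ≠ 0
  m0 : m ≠ 0
  nr : ∀ x : k, x ^ 3 - 3 * x ≠ t

namespace Cub

variable {m t s : k} {θ : K} (h : Cub m t s θ)

include h

lemma nk : ∀ y : k, algebraMap k K y ≠ θ := by
  intro y hy
  apply h.nr y
  apply (algebraMap k K).injective
  rw [← h.root, ← hy, map_sub, map_mul, map_pow, map_ofNat]

lemma nk2 : ∀ y : k, algebraMap k K y ≠ θ ^ 2 := by
  intro y hy
  have h1 : θ * algebraMap k K (y - 3) = algebraMap k K t := by
    rw [← h.root, map_sub, hy, map_ofNat]; ring
  by_cases h2 : y - 3 = 0
  · rw [h2, map_zero, mul_zero] at h1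
    have h3 : t = 0 := by
      apply (algebraMap k K).injective
      rw [← h1, map_zero]
    apply h.nr 0
    rw [h3]; ring
  · apply h.nk (t / (y - 3))
    rw [map_div₀, ← h1, mul_div_cancel_right₀]
    rwa [Ne, map_eq_zero]

lemma tr1 : Algebra.trace k K 1 = 3 := by
  have := Algebra.trace_algebraMap (R := k) (S := K) 1
  rw [map_one, h.deg] at this
  simpa using this

lemma trc (c : k) : Algebra.trace k K (algebraMap k K c) = 3 * c := by
  have := Algebra.trace_algebraMap (R := k) (S := K) c
  rw [h.deg] at this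
  simpa using this

lemma trθ : Algebra.trace k K θ = 0 := by
  rw [trace_cubic h.deg h.nk (a := 0) (b := -3) (c := -t), neg_zero]
  have := h.root
  simp only [map_zero, map_neg, map_ofNat]
  linear_combination this

lemma trθ2 : Algebra.trace k K (θ ^ 2) = 6 := by
  rw [trace_cubic h.deg h.nk2 (a := -6) (b := 9) (c := -t ^ 2), neg_neg]
  have h1 := h.root
  have h2 : (θ ^ 3 - 3 * θ) ^ 2 = algebraMap k K t ^ 2 := by rw [h1]
  simp only [map_neg, map_ofNat, map_pow]
  linear_combination h2

lemma θ2 : θ ^ 2 - 1 ≠ 0 := by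
  intro h1
  apply h.nk2 1
  rw [map_one]
  linear_combination -h1

/-- The trace of `a + b θ + c θ²`. -/
lemma tr_lin (a b c : k) :
    Algebra.trace k K (algebraMap k K a + algebraMap k K b * θ + algebraMap k K c * θ ^ 2) =
      3 * a + 6 * c := by
  rw [map_add, map_add, h.trc, ← Algebra.smul_def, ← Algebra.smul_def, map_smul, map_smul, h.trθ,
    h.trθ2, smul_eq_mul, smul_eq_mul]
  ring

end Cub

/-- The third element of the basis. -/
noncomputable def psi (m s : k) (θ : K) : K := -(algebraMap k K m * algebraMap k K s) / (θ ^ 2 - 1)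

namespace Cub

variable {m t s : k} {θ : K} (h : Cub m t s θ)

include h

lemma psi_eq : psi m s θ * algebraMap k K s =
    4 + algebraMap k K t * θ - 2 * θ ^ 2 := by
  have h1 := h.θ2
  have h2 := h.root
  have h3 : algebraMap k K t ^ 2 + algebraMap k K m * algebraMap k K s ^ 2 = 4 := by
    rw [← map_pow, ← map_pow, ← map_mul, ← map_add, h.rel, map_ofNat]
  rw [psi]
  field_simp
  rw [← h2] at h3 ⊢
  linear_combination -h3

lemma psi_sq : psi m s θ ^ 2 = -algebraMap k K m * (θ ^ 2 - 4) := by
  have h1 := h.θ2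
  have h2 := h.root
  have h3 : algebraMap k K t ^ 2 + algebraMap k K m * algebraMap k K s ^ 2 = 4 := by
    rw [← map_pow, ← map_pow, ← map_mul, ← map_add, h.rel, map_ofNat]
  rw [psi]
  field_simp
  rw [← h2] at h3
  linear_combination (algebraMap k K m) * h3

lemma sK : algebraMap k K s ≠ 0 := by
  rw [Ne, map_eq_zero]; exact h.s0

lemma trψ : Algebra.trace k K (psi m s θ) = 0 := by
  have h1 : Algebra.trace k K (psi m s θ * algebraMap k K s) = 0 := by
    rw [h.psi_eq]
    have := h.tr_lin 4 t (-2)
    simp only [map_ofNat, map_neg] at this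
    rw [show (4 : K) + algebraMap k K t * θ - 2 * θ ^ 2 = 4 + algebraMap k K t * θ + -2 * θ ^ 2 by
      ring, this]
    ring
  rw [mul_comm, ← Algebra.smul_def, map_smul, smul_eq_mul] at h1
  exact (mul_eq_zero.1 h1).resolve_left h.s0

lemma trθψ : Algebra.trace k K (θ * psi m s θ) = 0 := by
  have h1 : Algebra.trace k K ((θ * psi m s θ) * algebraMap k K s) = 0 := by
    have h2 : (θ * psi m s θ) * algebraMap k K s = algebraMap k K (-(2 * t)) +
        algebraMap k K (-2) * θ + algebraMap k K t * θ ^ 2 := by
      rw [mul_assoc, h.psi_eq]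
      have := h.root
      simp only [map_neg, map_mul, map_ofNat]
      linear_combination -2 * this
    rw [h2, h.tr_lin]
    ring
  rw [mul_comm, ← Algebra.smul_def, map_smul, smul_eq_mul] at h1
  exact (mul_eq_zero.1 h1).resolve_left h.s0

lemma trψ2 : Algebra.trace k K (psi m s θ ^ 2) = 6 * m := by
  have h2 : psi m s θ ^ 2 = algebraMap k K (4 * m) +
        algebraMap k K 0 * θ + algebraMap k K (-m) * θ ^ 2 := by
    rw [h.psi_sq]
    simp only [map_neg, map_mul, map_ofNat, map_zero]
    ring
  rw [h2, h.tr_lin]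
  ring

/-- The family `1, θ, ψ`. -/
lemma trace_mul (i j : Fin 3) :
    Algebra.trace k K ((![1, θ, psi m s θ] : Fin 3 → K) i * (![1, θ, psi m s θ] : Fin 3 → K) j) =
      if i = j then ![3, 6, 6 * m] j else 0 := by
  have h1 := h.tr1
  have h2 := h.trθ
  have h3 := h.trψ
  have h4 := h.trθψ
  have h5 := h.trψ2
  have h6 := h.trθ2
  rw [pow_two] at h5 h6
  fin_cases i <;> fin_cases j <;> simp [h1, h2, h3, h4, h5, h6, mul_comm (psi m s θ) θ]

lemma discr_eq : Algebra.discr k (![1, θ, psi m s θ] : Fin 3 → K) = 108 * m := by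
  rw [Algebra.discr_def]
  have : Algebra.traceMatrix k (![1, θ, psi m s θ] : Fin 3 → K) =
      Matrix.diagonal ![3, 6, 6 * m] := by
    ext i j
    rw [Algebra.traceMatrix_apply, Algebra.traceForm_apply, h.trace_mul, Matrix.diagonal_apply]
    split_ifs with h1
    · rw [h1]
    · rfl
  rw [this, Matrix.det_diagonal, Fin.prod_univ_three]
  simp
  ring

lemma linInd : LinearIndependent k (![1, θ, psi m s θ] : Fin 3 → K) := by
  by_contra hno
  have h1 := Algebra.discr_zero_of_not_linearIndependent k hno
  rw [h.discr_eq] at h1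
  exact h.m0 ((mul_eq_zero.1 h1).resolve_left (by norm_num))

/-- The basis `1, θ, ψ`. -/
lemma exists_basis : ∃ b : Basis (Fin 3) k K, (b : Fin 3 → K) = ![1, θ, psi m s θ] := by
  have hfd : FiniteDimensional k K := FiniteDimensional.of_finrank_pos (by rw [h.deg]; omega)
  refine ⟨basisOfLinearIndependentOfCardEqFinrank h.linInd (by rw [h.deg]; rfl), ?_⟩
  rw [coe_basisOfLinearIndependentOfCardEqFinrank]

end Cub

/-- Two parameters of the same cubic extension agree modulo squares. -/
theorem Cub.sq_of {m t s m' t' s' : k} {θ θ' : K} (h : Cub m t s θ) (h' : Cub m' t' s' θ') :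
    IsSquare (m * m') := by
  obtain ⟨b, hb⟩ := h.exists_basis
  obtain ⟨b', hb'⟩ := h'.exists_basis
  have h1 := Algebra.discr_of_matrix_vecMul (A := k) b (b.toMatrix b')
  rw [Basis.toMatrix_map_vecMul, hb, hb', h.discr_eq, h'.discr_eq] at h1
  refine ⟨(b.toMatrix b').det * m, ?_⟩
  have h2 : m' = (b.toMatrix b').det ^ 2 * m := by
    have h3 : (108 : k) ≠ 0 := by norm_num
    apply mul_left_cancel₀ h3
    rw [h1]
    rw [hb']
    ring
  rw [h2]
  ring

end Pool.Agent.LeoC.H68
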