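import Mathlib
import Pool.Agent.Helper68_LeoC.Cub

/-!
# The discriminant of the cubic extensions of the family

MP_5f2860_nt.
-/

set_option autoImplicit false

open Module NumberField

namespace Pool.Agent.LeoC.H68

/-- The discriminant of a basis of integers is a multiple of the discriminant of the field. -/
lemma discr_basis {K : Type} [Field K] [NumberField K] {ι : Type} [Fintype ι] [DecidableEq ι]
    (β : Basis ι ℚ K) (hβ : ∀ i, IsIntegral ℤ (β i)) :
    ∃ n : ℤ, n ≠ 0 ∧ Algebra.discr ℚ β = n ^ 2 * discr K := by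
  classical
  set b' := integralBasis K with hb'
  set β' := β.reindex (β.indexEquiv b') with hβ'
  have h1 : Algebra.discr ℚ β = (b'.toMatrix β').det ^ 2 * Algebra.discr ℚ b' := by
    rw [← Algebra.discr_of_matrix_vecMul, Basis.toMatrix_map_vecMul, hβ', Basis.coe_reindex,
      Algebra.discr_reindex]
  have hent : ∀ i j, IsIntegral ℤ (b'.toMatrix β' i j) := by
    intro i j
    rw [Basis.toMatrix_apply]
    have h2 : IsIntegral ℤ (β' j) := by
      rw [hβ', Basis.reindex_apply]
      exact hβ _
    have h3 : β' j = algebraMap (𝓞 K) K ⟨β' j, h2⟩ := rfl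
    rw [h3, hb', integralBasis_repr_apply]
    exact isIntegral_algebraMap
  have hdet : IsIntegral ℤ (b'.toMatrix β').det := IsIntegral.det fun i j => hent i j
  obtain ⟨n, hn⟩ := IsIntegrallyClosed.isIntegral_iff.1 hdet
  refine ⟨n, ?_, ?_⟩
  · rintro rfl
    rw [map_zero] at hn
    rw [← hn] at h1
    apply Algebra.discr_not_zero_of_basis ℚ β
    rw [h1]
    ring
  · rw [h1, coe_discr, ← hn]
    rfl

/-- The discriminant of a product basis for an orthogonal basis. -/
lemma discr_smulTower {k K : Type} [Field k] [NumberField k] [Field K] [NumberField K]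
    [Algebra k K] {o : Type} [Fintype o] [DecidableEq o] (b : Basis o k K) (d : o → k)
    (hd : ∀ i j, Algebra.trace k K (b i * b j) = if i = j then d j else 0) :
    Algebra.discr ℚ ((integralBasis k).smulTower b) =
      ∏ j, (Algebra.norm ℚ (d j) * (discr k : ℚ)) := by
  classical
  rw [Algebra.discr_def]
  have h1 : Algebra.traceMatrix ℚ ((integralBasis k).smulTower b) =
      Matrix.blockDiagonal fun j => Matrix.of fun i i' =>
        Algebra.trace ℚ k (integralBasis k i * integralBasis k i' * d j) := by
    ext ⟨i, j⟩ ⟨i', j'⟩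
    rw [Algebra.traceMatrix_apply, Algebra.traceForm_apply, Matrix.blockDiagonal_apply,
      Basis.smulTower_apply, Basis.smulTower_apply, smul_mul_smul_comm,
      ← Algebra.trace_trace (S := k), map_smul, hd, smul_eq_mul]
    simp only [Matrix.of_apply]
    split_ifs with h
    · rw [h]
    · rw [mul_zero, map_zero]
  rw [h1, Matrix.det_blockDiagonal]
  apply Finset.prod_congr rfl
  intro j _
  have h2 : (Matrix.of fun i i' =>
        Algebra.trace ℚ k (integralBasis k i * integralBasis k i' * d j)) =
      Algebra.traceMatrix ℚ (integralBasis k) * Algebra.leftMulMatrix (integralBasis k) (d j) := by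
    ext i i'
    rw [Matrix.mul_apply]
    simp only [Matrix.of_apply, Algebra.traceMatrix_apply, Algebra.traceForm_apply]
    have h3 : integralBasis k i' * d j = ∑ l, Algebra.leftMulMatrix (integralBasis k) (d j) l i' •
        integralBasis k l := by
      rw [mul_comm]
      simp only [Algebra.leftMulMatrix_eq_repr_mul]
      exact ((integralBasis k).sum_repr _).symm
    rw [mul_assoc, h3, Finset.mul_sum, map_sum]
    apply Finset.sum_congr rfl
    intro l _
    rw [mul_smul_comm, map_smul, smul_eq_mul, mul_comm]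
  rw [h2, Matrix.det_mul, ← Algebra.norm_eq_matrix_det, ← Algebra.discr_def, ← coe_discr, mul_comm]

/-- The generator is integral. -/
lemma Cub.int {k K : Type} [Field k] [NumberField k] [Field K] [NumberField K] [Algebra k K]
    {m s : k} {t : 𝓞 k} {θ : K} (h : Cub m (t : k) s θ) : IsIntegral ℤ θ := by
  have ht : IsIntegral ℤ (algebraMap k K (t : k)) :=
    (RingOfIntegers.isIntegral_coe t).map (algebraMap k K).toIntAlgHom
  have h1 : IsIntegral (𝓞 k) θ := by
    refine ⟨Polynomial.X ^ 3 - Polynomial.C 3 * Polynomial.X - Polynomial.C t, ?_, ?_⟩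
    · monicity!
    · simp only [Polynomial.eval₂_sub, Polynomial.eval₂_mul, Polynomial.eval₂_pow,
        Polynomial.eval₂_X, Polynomial.eval₂_C]
      have h2 := h.root
      rw [map_ofNat]
      have h3 : algebraMap (𝓞 k) K t = algebraMap k K (t : k) := rfl
      rw [h3, ← h2]
      ring
  exact isIntegral_trans (A := 𝓞 k) (R := ℤ) θ h1

/-- The third element of the basis is integral. -/
lemma Cub.int_psi {k K : Type} [Field k] [NumberField k] [Field K] [NumberField K] [Algebra k K]
    {m t : 𝓞 k} {s : k} {θ : K} (h : Cub (m : k) (t : k) s θ) : IsIntegral ℤ (psi (m : k) s θ) := by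
  have h1 : IsIntegral ℤ (psi (m : k) s θ ^ 2) := by
    rw [h.psi_sq]
    have hm : IsIntegral ℤ (algebraMap k K (m : k)) :=
      (RingOfIntegers.isIntegral_coe m).map (algebraMap k K).toIntAlgHom
    have h4 : IsIntegral ℤ (4 : K) := by
      have : (4 : K) = algebraMap ℤ K 4 := by simp
      rw [this]
      exact isIntegral_algebraMap
    exact hm.neg.mul ((h.int.pow 2).sub h4)
  exact h1.of_pow (by norm_num)

/-- **DSC3**: bound of the discriminant. -/
theorem discr_le {k K : Type} [Field k] [NumberField k] [Field K] [NumberField K] [Algebra k K]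
    {m t : 𝓞 k} {s : k} {θ : K} (h : Cub (m : k) (t : k) s θ) :
    (discr K).natAbs ≤
      108 ^ finrank ℚ k * (Algebra.norm ℤ m).natAbs * (discr k).natAbs ^ 3 := by
  obtain ⟨b, hb⟩ := h.exists_basis
  have h1 := discr_smulTower b ![3, 6, 6 * (m : k)] (fun i j => by rw [hb]; exact h.trace_mul i j)
  obtain ⟨n, hn, h2⟩ := discr_basis ((integralBasis k).smulTower b) (by
    rintro ⟨i, j⟩
    rw [Basis.smulTower_apply, Algebra.smul_def]
    apply IsIntegral.mul
    · rw [integralBasis_apply]
      exact (RingOfIntegers.isIntegral_coe _).map (algebraMap k K).toIntAlgHom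
    · rw [hb]
      have hθ := h.int
      have hψ := h.int_psi
      fin_cases j
      · exact isIntegral_one
      · exact hθ
      · exact hψ)
  rw [h1, Fin.prod_univ_three] at h2
  have h3 : ((Algebra.norm ℤ m : ℤ) : ℚ) = Algebra.norm ℚ (m : k) := Algebra.coe_norm_int m
  have h4 : ∀ c : ℚ, Algebra.norm ℚ (algebraMap ℚ k c) = c ^ finrank ℚ k := fun c =>
    Algebra.norm_algebraMap c
  have h5 : Algebra.norm ℚ (3 : k) = 3 ^ finrank ℚ k := by
    rw [← h4]; simp
  have h6 : Algebra.norm ℚ (6 : k) = 6 ^ finrank ℚ k := by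
    rw [← h4]; simp
  simp only [Matrix.cons_val_zero, Matrix.cons_val_one, Matrix.cons_val_two, Matrix.head_cons,
    Matrix.tail_cons, Matrix.cons_val] at h2
  rw [map_mul, h5, h6, ← h3] at h2
  have h7 : 108 ^ finrank ℚ k * Algebra.norm ℤ m * discr k ^ 3 = n ^ 2 * discr K := by
    have h8 : ((108 ^ finrank ℚ k * Algebra.norm ℤ m * discr k ^ 3 : ℤ) : ℚ) =
        ((n ^ 2 * discr K : ℤ) : ℚ) := by
      push_cast
      rw [← h2, show (108 : ℚ) = 3 * 6 * 6 by norm_num, mul_pow, mul_pow]
      ring
    exact_mod_cast h8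
  have h9 := congrArg Int.natAbs h7
  rw [Int.natAbs_mul, Int.natAbs_mul, Int.natAbs_mul, Int.natAbs_pow, Int.natAbs_pow,
    Int.natAbs_pow] at h9
  rw [show (108 : ℤ).natAbs = 108 from rfl] at h9
  rw [h9]
  exact Nat.le_mul_of_pos_left _ (by positivity)

end Pool.Agent.LeoC.H68
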