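import Mathlib
import Pool.Agent.LeoK.StrStmts
import Pool.Agent.Helper68_LeoC.Dsc

/-!
# The cyclic cubic extension `E = F(θ)`, `F = k(√(3m))`: Galois and unramified outside 3

MP_5f2860_nt.
-/

set_option autoImplicit false
set_option linter.unusedSectionVars false

open Module NumberField Polynomial
open Pool.Agent.LeoK

namespace Pool.Agent.LeoC.H68

section alg

variable {F E : Type} [Field F] [CharZero F] [Field E] [Algebra F E]

/-- The second root. -/
noncomputable def th2 (r s : F) (θ : E) : E :=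
  (-θ + algebraMap F E r * algebraMap F E s / (θ ^ 2 - 1)) / 2

variable {m t s r : F} {θ : E} (h : Cub m t s θ) (hr : r ^ 2 = 3 * m)

include h hr

lemma th2_quad : (th2 r s θ) ^ 2 + θ * th2 r s θ + (θ ^ 2 - 3) = 0 := by
  have h1 := h.θ2
  have h2 := h.root
  have h3 : algebraMap F E t ^ 2 + algebraMap F E m * algebraMap F E s ^ 2 = 4 := by
    rw [← map_pow, ← map_pow, ← map_mul, ← map_add, h.rel, map_ofNat]
  have h4 : algebraMap F E r ^ 2 = 3 * algebraMap F E m := by
    rw [← map_pow, hr, map_mul, map_ofNat]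
  have h5 : (2 : E) ≠ 0 := by
    have : (2 : E) = algebraMap F E 2 := (map_ofNat _ 2).symm
    rw [this, Ne, map_eq_zero]
    norm_num
  rw [← h2] at h3
  have h6 : (algebraMap F E r * algebraMap F E s / (θ ^ 2 - 1)) ^ 2 = 12 - 3 * θ ^ 2 := by
    rw [div_pow, mul_pow, h4, div_eq_iff (pow_ne_zero 2 h1)]
    linear_combination 3 * h3
  have h7 : 2 * th2 r s θ = -θ + algebraMap F E r * algebraMap F E s / (θ ^ 2 - 1) := by
    rw [th2]; field_simp
  have h8 : (2 * th2 r s θ + θ) ^ 2 = 12 - 3 * θ ^ 2 := by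
    rw [h7, ← h6]; ring
  have h9 : (4 : E) * ((th2 r s θ) ^ 2 + θ * th2 r s θ + (θ ^ 2 - 3)) = 0 := by
    linear_combination h8
  have h10 : (4 : E) ≠ 0 := by
    rw [show (4 : E) = 2 * 2 by norm_num]
    exact mul_ne_zero h5 h5
  exact (mul_eq_zero.1 h9).resolve_left h10

lemma th2_root : (th2 r s θ) ^ 3 - 3 * th2 r s θ = algebraMap F E t := by
  have h1 := th2_quad h hr
  rw [← h.root]
  linear_combination (th2 r s θ - θ) * h1

lemma cub2 : Cub m t s (th2 r s θ) := ⟨h.deg, th2_root h hr, h.rel, h.s0, h.m0, h.nr⟩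

lemma cub3 : Cub m t s (-θ - th2 r s θ) := by
  refine ⟨h.deg, ?_, h.rel, h.s0, h.m0, h.nr⟩
  have h1 := th2_quad h hr
  rw [← h.root]
  linear_combination (-2 * θ - th2 r s θ) * h1

lemma tr12 : Algebra.trace F E (θ * th2 r s θ) = -3 := by
  have h1 := h.trθ2
  have h2 := (cub2 h hr).trθ2
  have h3 := (cub3 h hr).trθ2
  have h4 : (-θ - th2 r s θ) ^ 2 = θ ^ 2 + th2 r s θ ^ 2 + (2 : F) • (θ * th2 r s θ) := by
    rw [Algebra.smul_def, map_ofNat]; ring
  rw [h4, map_add, map_add, map_smul, h1, h2, smul_eq_mul] at h3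
  have h5 : (2 : F) * (Algebra.trace F E (θ * th2 r s θ) + 3) = 0 := by
    linear_combination h3
  have h6 := (mul_eq_zero.1 h5).resolve_left two_ne_zero
  linear_combination h6

lemma discr81 : Algebra.discr F (![1, θ, th2 r s θ] : Fin 3 → E) = 81 := by
  rw [Algebra.discr_def]
  have h1 := h.tr1
  have h2 := h.trθ
  have h3 := (cub2 h hr).trθ
  have h4 := tr12 h hr
  have h5 := h.trθ2
  have h6 := (cub2 h hr).trθ2
  rw [pow_two] at h5 h6
  have : Algebra.traceMatrix F (![1, θ, th2 r s θ] : Fin 3 → E) =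
      !![3, 0, 0; 0, 6, -3; 0, -3, 6] := by
    ext i j
    rw [Algebra.traceMatrix_apply, Algebra.traceForm_apply]
    fin_cases i <;> fin_cases j <;> simp [h1, h2, h3, h4, h5, h6, mul_comm (th2 r s θ) θ]
  rw [this, Matrix.det_fin_three]
  simp
  norm_num

lemma exists_basis81 : ∃ b : Basis (Fin 3) F E, (b : Fin 3 → E) = ![1, θ, th2 r s θ] := by
  have hfd : FiniteDimensional F E := FiniteDimensional.of_finrank_pos (by rw [h.deg]; omega)
  have hli : LinearIndependent F (![1, θ, th2 r s θ] : Fin 3 → E) := by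
    by_contra hno
    have h1 := Algebra.discr_zero_of_not_linearIndependent F hno
    rw [discr81 h hr] at h1
    norm_num at h1
  refine ⟨basisOfLinearIndependentOfCardEqFinrank hli (by rw [h.deg]; rfl), ?_⟩
  rw [coe_basisOfLinearIndependentOfCardEqFinrank]

/-- `E / F` is Galois. -/
theorem isGalois_ext : IsGalois F E := by
  have hfd : FiniteDimensional F E := FiniteDimensional.of_finrank_pos (by rw [h.deg]; omega)
  set p : F[X] := X ^ 3 - 3 * X - C t with hp
  have hpm : p.Monic := by rw [hp]; monicity!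
  have hfac : p.map (algebraMap F E) = (X - C θ) * (X - C (th2 r s θ)) * (X - C (-θ - th2 r s θ)) := by
    have h1 := th2_quad h hr
    have h2 := h.root
    rw [hp]
    simp only [Polynomial.map_sub, Polynomial.map_mul, Polynomial.map_pow, map_X, map_C,
      Polynomial.map_ofNat]
    rw [← h2]
    simp only [map_sub, map_mul, map_pow, map_neg, map_ofNat]
    have h3 : (C (th2 r s θ) : E[X]) ^ 2 + C θ * C (th2 r s θ) + (C θ ^ 2 - 3) = 0 := by
      have := congrArg (C : E → E[X]) h1
      simpa only [map_add, map_sub, map_mul, map_pow, map_ofNat, map_zero] using this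
    linear_combination (X - C θ) * h3
  have hsp : (p.map (algebraMap F E)).Splits := by
    rw [hfac]
    exact ((Polynomial.Splits.X_sub_C _).mul (Polynomial.Splits.X_sub_C _)).mul
      (Polynomial.Splits.X_sub_C _)
  have hroot : ∀ x : E, x ^ 3 - 3 * x = algebraMap F E t → x ∈ p.rootSet E := by
    intro x hx
    rw [mem_rootSet]
    refine ⟨hpm.ne_zero, ?_⟩
    rw [hp]
    simp only [map_sub, map_mul, map_pow, aeval_X, aeval_C, map_ofNat]
    rw [hx, sub_self]
  have : p.IsSplittingField F E := by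
    refine ⟨hsp, ?_⟩
    obtain ⟨b, hb⟩ := exists_basis81 h hr
    rw [eq_top_iff]
    intro x _
    rw [← b.sum_repr x]
    apply sum_mem
    intro i _
    apply Subalgebra.smul_mem
    rw [hb]
    fin_cases i
    · exact one_mem _
    · exact Algebra.subset_adjoin (hroot _ h.root)
    · exact Algebra.subset_adjoin (hroot _ (th2_root h hr))
  have : Normal F E := Normal.of_isSplittingField p
  exact {}

end alg

section unr

variable {F E : Type} [Field F] [NumberField F] [Field E] [NumberField E] [Algebra F E]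

/-- The discriminant of an integral basis lies in the different. -/
lemma discr_mem_different {ι : Type} [Fintype ι] [DecidableEq ι] (b : Basis ι F E)
    (hb : ∀ i, IsIntegral (𝓞 F) (b i)) (d : 𝓞 E)
    (hd : algebraMap F E (Algebra.discr F b) = (d : E)) : d ∈ differentIdeal (𝓞 F) (𝓞 E) := by
  classical
  have h1 : (d : E) ∈ IsLocalization.coeSubmodule E (differentIdeal (𝓞 F) (𝓞 E)) := by
    rw [coeSubmodule_differentIdeal (𝓞 F) F (𝓞 E), Submodule.mem_div_iff_forall_mul_mem]
    intro x hx
    have h2 := isIntegral_discr_mul_of_mem_traceDual (A := 𝓞 F) (K := F) (B := 𝓞 E)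
      (1 : Submodule (𝓞 E) E) hb (a := 1) (x := x) (Submodule.mem_one.2 ⟨1, map_one _⟩) hx
    rw [smul_mul_assoc, one_mul, Algebra.smul_def, hd] at h2
    have h3 : IsIntegral ℤ ((d : E) * x) := isIntegral_trans (A := 𝓞 F) (R := ℤ) _ h2
    rw [Submodule.mem_one]
    exact ⟨⟨_, h3⟩, rfl⟩
  rw [IsLocalization.mem_coeSubmodule] at h1
  obtain ⟨y, hy, hyd⟩ := h1
  have : y = d := RingOfIntegers.coe_injective hyd
  rwa [← this]

/-- `E / F` is unramified outside 3. -/
theorem unr_ext {m t : 𝓞 F} {s r : F} {θ : E} (h : Cub (m : F) (t : F) s θ)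
    (hr : r ^ 2 = 3 * (m : F)) : UnrOut3 F E := by
  obtain ⟨b, hb⟩ := exists_basis81 h hr
  have h1 : (81 : 𝓞 E) ∈ differentIdeal (𝓞 F) (𝓞 E) := by
    apply discr_mem_different b
    · intro i
      have h2 : IsIntegral ℤ (b i) := by
        rw [hb]
        have hθ := h.int
        have hψ := (cub2 h hr).int
        fin_cases i
        · exact isIntegral_one
        · exact hθ
        · exact hψ
      exact h2.tower_top
    · rw [hb, discr81 h hr, map_ofNat]
      rfl
  intro P hP hP0 h3
  rw [← not_dvd_differentIdeal_iff]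
  intro h4
  rw [Ideal.dvd_iff_le] at h4
  have h5 : (3 : 𝓞 E) ^ 4 ∈ P := by
    have := h4 h1
    norm_num
    exact this
  exact h3 (hP.mem_of_pow_mem 4 h5)

end unr

end Pool.Agent.LeoC.H68
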