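import Mathlib
import Pool.Agent.Helper68_LeoC.Ext
import Pool.Agent.Helper59_LEO4.Small

/-!
# The field `E = K F`

MP_5f2860_nt.
-/

set_option autoImplicit false
set_option linter.unusedSectionVars false

open Module NumberField Polynomial
open Pool.Agent.LeoK

namespace Pool.Agent.LeoC.H68

/-- Homomorphisms of quadratic extensions. -/
lemma quad_lift {k F E : Type} [Field k] [Field F] [Field E] [Algebra k F] [Algebra k E]
    (h2 : finrank k F = 2) {d : k} {r : F} (hr : r ^ 2 = algebraMap k F d)
    (hd : ∀ x : k, x ^ 2 ≠ d) {r' : E} (hr' : r' ^ 2 = algebraMap k E d) :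
    ∃ f : F →ₐ[k] E, f r = r' := by
  have hfd : FiniteDimensional k F := FiniteDimensional.of_finrank_pos (by omega)
  have hint : IsIntegral k r := Algebra.IsIntegral.isIntegral r
  have hirr : Irreducible (X ^ 2 - C d : k[X]) := by
    rw [X_pow_sub_C_irreducible_iff_of_prime Nat.prime_two]
    intro b hb
    exact hd b hb
  have hmink : minpoly k r = X ^ 2 - C d := by
    symm
    apply minpoly.eq_of_irreducible_of_monic hirr
    · simp only [map_sub, map_pow, aeval_X, aeval_C]
      rw [hr, sub_self]
    · exact monic_X_pow_sub_C _ two_ne_zero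
  have htop : Algebra.adjoin k {r} = ⊤ := by
    have h5 : IntermediateField.adjoin k {r} = ⊤ := by
      apply IntermediateField.eq_of_le_of_finrank_eq le_top
      rw [IntermediateField.adjoin.finrank hint, hmink, IntermediateField.finrank_top', h2]
      exact natDegree_X_pow_sub_C
    rw [← IntermediateField.adjoin_simple_toSubalgebra_of_isAlgebraic
      (Algebra.IsAlgebraic.isAlgebraic r), h5, IntermediateField.top_toSubalgebra]
  set pb := PowerBasis.ofAdjoinEqTop hint htop with hpb
  have hgen : pb.gen = r := PowerBasis.ofAdjoinEqTop_gen hint htop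
  have hy : aeval r' (minpoly k pb.gen) = 0 := by
    rw [hgen, hmink]
    simp only [map_sub, map_pow, aeval_X, aeval_C]
    rw [hr', sub_self]
  refine ⟨pb.lift r' hy, ?_⟩
  have h7 := pb.lift_gen r' hy
  exact (congrArg (pb.lift r' hy) hgen.symm).trans h7

/-- No new square roots in a cubic extension. -/
lemma nsq_cubic {k K : Type} [Field k] [Field K] [Algebra k K] (h3 : finrank k K = 3) {d : k}
    (hd : ∀ x : k, x ^ 2 ≠ d) : ∀ x : K, x ^ 2 ≠ algebraMap k K d := by
  intro x hx
  have hfd : FiniteDimensional k K := FiniteDimensional.of_finrank_pos (by omega)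
  have hint : IsIntegral k x := Algebra.IsIntegral.isIntegral x
  have hirr : Irreducible (X ^ 2 - C d : k[X]) := by
    rw [X_pow_sub_C_irreducible_iff_of_prime Nat.prime_two]
    intro b hb
    exact hd b hb
  have hmink : minpoly k x = X ^ 2 - C d := by
    symm
    apply minpoly.eq_of_irreducible_of_monic hirr
    · simp only [map_sub, map_pow, aeval_X, aeval_C]
      rw [hx, sub_self]
    · exact monic_X_pow_sub_C _ two_ne_zero
  have h1 := minpoly.degree_dvd hint (K := k) (L := K)
  rw [hmink, h3, natDegree_X_pow_sub_C] at h1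
  omega

/-- No new roots of an irreducible cubic polynomial in a quadratic extension. -/
lemma nr_quad {k F : Type} [Field k] [CharZero k] [Field F] [Algebra k F] (h2 : finrank k F = 2)
    {t : k} (hn : ∀ x : k, x ^ 3 - 3 * x ≠ t) : ∀ x : F, x ^ 3 - 3 * x ≠ algebraMap k F t := by
  intro x hx
  have hfd : FiniteDimensional k F := FiniteDimensional.of_finrank_pos (by omega)
  have hint : IsIntegral k x := Algebra.IsIntegral.isIntegral x
  set p : k[X] := X ^ 3 - 3 * X - C t with hp
  have hpn : p.natDegree = 3 := by rw [hp]; compute_degree!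
  have hpm : p.Monic := by rw [hp]; monicity!
  have hirr : Irreducible p := by
    rw [Polynomial.Monic.irreducible_iff_roots_eq_zero_of_degree_le_three hpm (by omega) (by omega)]
    rw [Multiset.eq_zero_iff_forall_notMem]
    intro y hy
    rw [mem_roots hpm.ne_zero, IsRoot, hp] at hy
    simp only [eval_sub, eval_mul, eval_pow, eval_X, eval_C, eval_ofNat] at hy
    exact hn y (sub_eq_zero.1 hy)
  have hmink : minpoly k x = p := by
    symm
    apply minpoly.eq_of_irreducible_of_monic hirr
    · rw [hp]
      simp only [map_sub, map_mul, map_pow, aeval_X, aeval_C, map_ofNat]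
      rw [hx, sub_self]
    · exact hpm
  have h1 := minpoly.degree_dvd hint (K := k) (L := F)
  rw [hmink, h2, hpn] at h1
  omega

/-- The field `E = K F`. -/
theorem exists_E {k K F : Type} [Field k] [NumberField k] [Field K] [NumberField K] [Field F]
    [NumberField F] [Algebra k K] [Algebra k F] {m t : 𝓞 k} {s : k} {θ : K}
    (h : Cub (m : k) (t : k) s θ) (h2 : finrank k F = 2) {r : F}
    (hr : r ^ 2 = algebraMap k F (3 * (m : k))) (hnsq : ∀ x : k, x ^ 2 ≠ 3 * (m : k)) :
    ∃ (E : Type) (_ : Field E) (_ : NumberField E) (_ : Algebra K E) (_ : Algebra F E),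
      finrank K E = 2 ∧ IsGalois F E ∧ finrank F E = 3 ∧ UnrOut3 F E := by
  have hK : ¬ IsSquare (algebraMap k K (3 * (m : k))) := by
    rintro ⟨x, hx⟩
    exact nsq_cubic h.deg hnsq x (by rw [hx, pow_two])
  obtain ⟨E, _, _, _, r', hE2, hr'⟩ := Pool.Agent.LEO4.H59.exists_quad K _ hK
  let _ : Algebra k E := ((algebraMap K E).comp (algebraMap k K)).toAlgebra
  have : IsScalarTower k K E := IsScalarTower.of_algebraMap_eq fun x => rfl
  obtain ⟨f, hf⟩ := quad_lift (E := E) h2 hr hnsq (r' := r') (by rw [hr']; rfl)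
  let _ : Algebra F E := f.toRingHom.toAlgebra
  have : IsScalarTower k F E := IsScalarTower.of_algebraMap_eq fun x => (f.commutes x).symm
  have hE6 : finrank k E = 6 := by
    rw [← finrank_mul_finrank k K E, h.deg, hE2]
  have hFE : finrank F E = 3 := by
    have := finrank_mul_finrank k F E
    rw [h2, hE6] at this
    omega
  have hm : ((algebraMap (𝓞 k) (𝓞 F) m : 𝓞 F) : F) = algebraMap k F (m : k) := rfl
  have ht : ((algebraMap (𝓞 k) (𝓞 F) t : 𝓞 F) : F) = algebraMap k F (t : k) := rfl
  have hcub : Cub (k := F) (K := E) ((algebraMap (𝓞 k) (𝓞 F) m : 𝓞 F) : F)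
      ((algebraMap (𝓞 k) (𝓞 F) t : 𝓞 F) : F) (algebraMap k F s) (algebraMap K E θ) := by
    rw [hm, ht]
    refine ⟨hFE, ?_, ?_, ?_, ?_, ?_⟩
    · rw [← IsScalarTower.algebraMap_apply k F E, IsScalarTower.algebraMap_apply k K E, ← h.root,
        map_sub, map_mul, map_pow, map_ofNat]
    · have := congrArg (algebraMap k F) h.rel
      simpa only [map_add, map_mul, map_pow, map_ofNat] using this
    · rw [Ne, map_eq_zero]; exact h.s0
    · rw [Ne, map_eq_zero]; exact h.m0
    · exact nr_quad h2 h.nr
  have hr2 : r ^ 2 = 3 * ((algebraMap (𝓞 k) (𝓞 F) m : 𝓞 F) : F) := by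
    rw [hm, hr, map_mul, map_ofNat]
  exact ⟨E, inferInstance, inferInstance, inferInstance, inferInstance, hE2,
    isGalois_ext hcub hr2, hFE, unr_ext hcub hr2⟩

end Pool.Agent.LeoC.H68
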