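import Mathlib
import Pool.Agent.Helper59_LEO4.Iso
import Pool.Agent.Helper68_LeoC.Com

/-!
# Counting the cubic extensions of the family

MP_5f2860_nt.
-/

set_option autoImplicit false
set_option linter.unusedSectionVars false

open Module NumberField Polynomial Filter
open Pool.Agent.LEO4.H59

namespace Pool.Agent.LeoC.H68

/-- transport along an isomorphism. -/
lemma Cub.transport {k K K' : Type} [Field k] [CharZero k] [Field K] [Field K'] [Algebra k K]
    {m t s : k} {θ : K} (h : Cub m t s θ) (f : K ≃+* K') :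
    (letI := ((f : K →+* K').comp (algebraMap k K)).toAlgebra; Cub m t s (f θ)) := by
  let _ := ((f : K →+* K').comp (algebraMap k K)).toAlgebra
  let e : K ≃ₐ[k] K' := AlgEquiv.ofRingEquiv (f := f) fun x => rfl
  refine ⟨?_, ?_, h.rel, h.s0, h.m0, h.nr⟩
  · rw [← h.deg]
    exact (e.toLinearEquiv.finrank_eq).symm
  · have h1 := congrArg f h.root
    rw [map_sub, map_mul, map_pow, map_ofNat] at h1
    exact h1

/-- **ISO3**: few elements give isomorphic fields. -/
theorem iso_fiber3 (k : Type) [Field k] [NumberField k] (S : Finset (𝓞 k))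
    (hS : ∀ m ∈ S, ∀ m' ∈ S, IsSquare ((m : k) * m') → m = m')
    (K' : Type) [Field K'] [NumberField K']
    (hK : ∀ m ∈ S, ∃ (K : Type) (_ : Field K) (_ : Algebra k K) (t s : k) (θ : K),
      Cub (m : k) t s θ ∧ Nonempty (K ≃+* K')) :
    S.card ≤ finrank ℚ k := by
  classical
  obtain ⟨j⟩ : Nonempty (K' →+* ℂ) := inferInstance
  have key : ∀ m : {m // m ∈ S}, ∃ (τ : k →+* K') (t s : k) (x : K'),
      (letI := τ.toAlgebra; Cub ((m : 𝓞 k) : k) t s x) := by
    rintro ⟨m, hm⟩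
    obtain ⟨K, _, _, t, s, θ, hcub, ⟨f⟩⟩ := hK m hm
    exact ⟨(f : K →+* K').comp (algebraMap k K), t, s, f θ, hcub.transport f⟩
  choose τ t s x hx using key
  have hinj : Function.Injective (fun m : {m // m ∈ S} => j.comp (τ m)) := by
    intro m m' heq
    simp only at heq
    have hτ : τ m = τ m' := by
      ext z
      apply j.injective
      exact congrArg (fun g : k →+* ℂ => g z) heq
    have h1 := hx m
    have h2 := hx m'
    rw [← hτ] at h2
    let _ := (τ m).toAlgebra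
    exact Subtype.ext (hS m m.2 m' m'.2 (h1.sq_of h2))
  have h1 := Fintype.card_le_of_injective _ hinj
  rwa [Embeddings.card, Fintype.card_coe] at h1

/-- The counting argument. -/
theorem core3 (k : Type) [Field k] [NumberField k] (c : ℝ) (hc : 0 < c) (P : 𝓞 k → Prop)
    (hk : ∀ᶠ Z : ℝ in atTop, ∃ S : Finset (𝓞 k), c * Z ≤ S.card ∧
      (∀ m ∈ S, ((Algebra.norm ℤ m).natAbs : ℝ) ≤ Z ∧ P m) ∧
      (∀ m ∈ S, ∀ m' ∈ S, IsSquare ((m : k) * m') → m = m'))
    (Pr : ∀ (K : Type) [Field K] [NumberField K] [Algebra k K], Prop)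
    (hPr : ∀ m : 𝓞 k, P m → ∃ (K : Type) (_ : Field K) (_ : NumberField K) (_ : Algebra k K)
      (t : 𝓞 k) (s : k) (θ : K), Cub (m : k) (t : k) s θ ∧ Pr K) :
    ∃ c : ℝ, 0 < c ∧ ∀ᶠ X : ℝ in atTop,
      ∃ (I : Type) (_ : Fintype I) (K : I → Type) (_ : ∀ i, Field (K i))
        (_ : ∀ i, NumberField (K i)) (_ : ∀ i, Algebra k (K i)),
        c * X ≤ Fintype.card I ∧ (∀ i i', Nonempty (K i ≃+* K i') → i = i') ∧
        ∀ i, finrank k (K i) = 3 ∧ ((discr (K i)).natAbs : ℝ) ≤ X ∧ Pr (K i) := by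
  classical
  set n := finrank ℚ k with hn
  have hn0 : 0 < n := finrank_pos
  set D : ℝ := 108 ^ n * ((discr k).natAbs : ℝ) ^ 3 with hD
  have hD0 : 0 < D := by
    have : (discr k).natAbs ≠ 0 := Int.natAbs_ne_zero.mpr (discr_ne_zero k)
    have : (0 : ℝ) < ((discr k).natAbs : ℝ) := by positivity
    positivity
  have hev' := (tendsto_id.atTop_div_const hD0).eventually hk
  refine ⟨c / (n * D), by positivity, ?_⟩
  filter_upwards [hev', eventually_ge_atTop (0 : ℝ)] with X hX hX0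
  obtain ⟨S, hScard, hS, hSinj⟩ := hX
  simp only [id] at hScard hS
  -- the fields
  have hfield : ∀ m : {m // m ∈ S}, ∃ (K : Type) (_ : Field K) (_ : NumberField K)
      (_ : Algebra k K) (t : 𝓞 k) (s : k) (θ : K), Cub ((m : 𝓞 k) : k) (t : k) s θ ∧ Pr K :=
    fun m => hPr m (hS m m.2).2
  choose K hF hNF hA t s θ hcub hpr using hfield
  -- representatives
  obtain ⟨T, hTS, hTinj, hTcard⟩ := select (Finset.univ : Finset {m // m ∈ S})
    (fun m m' => Nonempty (K m ≃+* K m'))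
    (fun m => ⟨RingEquiv.refl _⟩) (fun m m' ⟨e⟩ => ⟨e.symm⟩) n (by
      intro a ha
      have h := iso_fiber3 k ((Finset.univ.filter fun m' => Nonempty (K a ≃+* K m')).map
        ⟨Subtype.val, Subtype.val_injective⟩) (by
          intro m hm m' hm' hsq
          rw [Finset.mem_map] at hm hm'
          obtain ⟨m₀, -, rfl⟩ := hm
          obtain ⟨m₁, -, rfl⟩ := hm'
          exact hSinj _ m₀.2 _ m₁.2 hsq) (K a) (by
          intro m hm
          rw [Finset.mem_map] at hm
          obtain ⟨m₀, hm₀, rfl⟩ := hm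
          rw [Finset.mem_filter] at hm₀
          obtain ⟨-, ⟨e⟩⟩ := hm₀
          exact ⟨K m₀, hF _, hA _, t _, s _, θ _, hcub _, ⟨e.symm⟩⟩)
      rwa [Finset.card_map] at h)
  refine ⟨{m // m ∈ T}, inferInstance, fun m => K m.1, fun m => hF m.1, fun m => hNF m.1,
    fun m => hA m.1, ?_, ?_, ?_⟩
  · rw [Fintype.card_coe]
    have h4 : ((Finset.univ : Finset {m // m ∈ S}).card : ℝ) ≤ n * T.card := by
      exact_mod_cast hTcard
    rw [Finset.card_univ, Fintype.card_coe] at h4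
    have hnpos : (0 : ℝ) < n := by exact_mod_cast hn0
    have h5 : c / (n * D) * X = (c * (X / D)) / n := by
      field_simp
    rw [h5, div_le_iff₀ hnpos]
    linarith
  · rintro ⟨m, hm⟩ ⟨m', hm'⟩ he
    exact Subtype.ext (hTinj m hm m' hm' he)
  · rintro ⟨m, hm⟩
    obtain ⟨hnm, hP⟩ := hS m.1 m.2
    refine ⟨(hcub m).deg, ?_, hpr m⟩
    have hd := discr_le (hcub m)
    have hd' : ((discr (K m)).natAbs : ℝ) ≤
        108 ^ n * ((Algebra.norm ℤ m.1).natAbs : ℝ) * ((discr k).natAbs : ℝ) ^ 3 := by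
      exact_mod_cast hd
    calc ((discr (K m)).natAbs : ℝ)
        ≤ 108 ^ n * ((Algebra.norm ℤ m.1).natAbs : ℝ) * ((discr k).natAbs : ℝ) ^ 3 := hd'
      _ = D * ((Algebra.norm ℤ m.1).natAbs : ℝ) := by rw [hD]; ring
      _ ≤ D * (X / D) := by gcongr
      _ = X := by field_simp

end Pool.Agent.LeoC.H68
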