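import Mathlib
import Pool.Agent.LeoK.CorStmts
import Pool.Agent.Helper68_LeoC.Com
import Pool.Agent.Helper21_Leo3.Dwn
import Pool.Agent.Helper19_LeoK.Gup3

/-!
# The cubic extensions of the family have vanishing Selmer type group

MP_5f2860_nt.
-/

set_option autoImplicit false
set_option linter.unusedSectionVars false

open Module NumberField IsDedekindDomain WithZero
open Pool.Agent.Leo3 Pool.Agent.LeoK Pool.Agent.Leo3.H21

namespace Pool.Agent.LeoC.H68

theorem valCube3_up {K L : Type} [Field K] [NumberField K] [Field L] [NumberField L] [Algebra K L]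
    {z : K} (h : ValCube3 z) : ValCube3 (algebraMap K L z) := by
  intro P hP
  let q : HeightOneSpectrum (𝓞 K) := P.under (𝓞 K)
  have hq : (3 : 𝓞 K) ∉ q.asIdeal := by
    intro h6
    apply hP
    have h7 : algebraMap (𝓞 K) (𝓞 L) 3 ∈ P.asIdeal := h6
    rwa [map_ofNat] at h7
  obtain ⟨x, hx⟩ := h q hq
  have : P.asIdeal.LiesOver q.asIdeal := ⟨rfl⟩
  have h8 := HeightOneSpectrum.valuation_liesOver L q P z
  refine ⟨x ^ (q.asIdeal.ramificationIdx' P.asIdeal), ?_⟩
  rw [← h8, hx, ← pow_mul, ← pow_mul, mul_comm]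

/-- going down a quadratic extension. -/
theorem dwn3 {K L : Type} [Field K] [NumberField K] [Field L] [NumberField L] [Algebra K L]
    (h2 : finrank K L = 2) (hmu : NoMu L) (hW : W3 L) : NoMu K ∧ W3 K := by
  have : FiniteDimensional K L := FiniteDimensional.of_finrank_pos (by rw [h2]; norm_num)
  refine ⟨noMu_down hmu, ?_⟩
  intro z hz hv hl
  have hz' : algebraMap K L z ≠ 0 := by
    simpa using hz
  obtain ⟨s, hs⟩ := hW (algebraMap K L z) hz' (valCube3_up hv) (locCube_up hl)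
  have hN : (Algebra.norm K s) ^ 3 = z ^ 2 := by
    rw [← map_pow, hs, Algebra.norm_algebraMap, h2]
  refine ⟨z / Algebra.norm K s, ?_⟩
  rw [div_pow, hN]
  field_simp

/-- The vanishing implies Leopoldt's conjecture in the tower. -/
theorem tower_of (hl : Leo3Stmt) {K : Type} [Field K] [NumberField K] (hmu : NoMu K) (hW : W3 K) :
    Tower3 K := by
  refine ⟨hl K hmu hW, ?_⟩
  intro E _ _ _ _ j hj hun
  obtain ⟨h1, h2⟩ := Pool.Agent.LeoK.H19.gup3 K E j hj hun hmu hW
  exact hl E h1 h2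

/-- From `F = k(√(3m))` to `K = k(θ)`. -/
theorem good_cubic {k K F : Type} [Field k] [NumberField k] [Field K] [NumberField K] [Field F]
    [NumberField F] [Algebra k K] [Algebra k F] {m t : 𝓞 k} {s : k} {θ : K}
    (h : Cub (m : k) (t : k) s θ) (h2 : finrank k F = 2) {r : F}
    (hr : r ^ 2 = algebraMap k F (3 * (m : k))) (hnsq : ∀ x : k, x ^ 2 ≠ 3 * (m : k))
    (hmu : NoMu F) (hW : W3 F) : NoMu K ∧ W3 K := by
  obtain ⟨E, _, _, _, _, hE2, hG, hE3, hun⟩ := exists_E h h2 hr hnsq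
  obtain ⟨h3, h4⟩ := Pool.Agent.LeoK.H19.gup3 F E 1 (by rw [hE3]; norm_num) hun hmu hW
  exact dwn3 hE2 h3 h4

end Pool.Agent.LeoC.H68
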