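import Mathlib

/-!
# Real roots of `x³ - 3 x = c`

MP_5f2860_nt.
-/

set_option autoImplicit false

namespace Pool.Agent.LeoC.H68

lemma exists_root (c : ℝ) : ∃ a : ℝ, a ^ 3 - 3 * a = c := by
  have hcont : Continuous fun x : ℝ => x ^ 3 - 3 * x := by fun_prop
  have h1 : (fun x : ℝ => x ^ 3 - 3 * x) (-(|c| + 2)) ≤ c := by
    have h2 := neg_abs_le c
    have h3 := abs_nonneg c
    simp only
    nlinarith [sq_nonneg (|c|), mul_nonneg h3 h3, mul_nonneg (mul_nonneg h3 h3) h3]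
  have h2 : c ≤ (fun x : ℝ => x ^ 3 - 3 * x) (|c| + 2) := by
    have h2 := le_abs_self c
    have h3 := abs_nonneg c
    simp only
    nlinarith [sq_nonneg (|c|), mul_nonneg h3 h3, mul_nonneg (mul_nonneg h3 h3) h3]
  have hab : -(|c| + 2) ≤ |c| + 2 := by
    have := abs_nonneg c
    linarith
  obtain ⟨a, -, ha⟩ := intermediate_value_Icc hab hcont.continuousOn ⟨h1, h2⟩
  exact ⟨a, ha⟩

lemma roots_eq {a c : ℝ} (ha : a ^ 3 - 3 * a = c) (x : ℝ) :
    x ^ 3 - 3 * x = c ↔ x = a ∨ (2 * x + a) ^ 2 = 12 - 3 * a ^ 2 := by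
  constructor
  · intro hx
    have h1 : (x - a) * ((2 * x + a) ^ 2 - (12 - 3 * a ^ 2)) = 0 := by
      rw [← ha] at hx
      linear_combination 4 * hx
    rcases mul_eq_zero.1 h1 with h2 | h2
    · left; linarith
    · right; linarith
  · rintro (rfl | h)
    · exact ha
    · rw [← ha]
      linear_combination (x - a) / 4 * h

lemma sq_sub {a c : ℝ} (ha : a ^ 3 - 3 * a = c) : c ^ 2 - 4 = (a ^ 2 - 4) * (a ^ 2 - 1) ^ 2 := by
  rw [← ha]; ring

lemma ncard_one {c : ℝ} (hc : 4 < c ^ 2) : {x : ℝ | x ^ 3 - 3 * x = c}.ncard = 1 := by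
  obtain ⟨a, ha⟩ := exists_root c
  have h1 := sq_sub ha
  have h2 : 4 < a ^ 2 := by
    by_contra hle
    push Not at hle
    have : (a ^ 2 - 4) * (a ^ 2 - 1) ^ 2 ≤ 0 :=
      mul_nonpos_of_nonpos_of_nonneg (by linarith) (sq_nonneg _)
    linarith
  rw [Set.ncard_eq_one]
  refine ⟨a, ?_⟩
  ext x
  rw [Set.mem_ofPred_eq, Set.mem_singleton_iff, roots_eq ha]
  constructor
  · rintro (h3 | h3)
    · exact h3
    · exfalso
      nlinarith [sq_nonneg (2 * x + a)]
  · intro h3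
    exact Or.inl h3

lemma ncard_three {c : ℝ} (hc : c ^ 2 < 4) : {x : ℝ | x ^ 3 - 3 * x = c}.ncard = 3 := by
  obtain ⟨a, ha⟩ := exists_root c
  have h1 := sq_sub ha
  have h2 : a ^ 2 < 4 := by
    by_contra hle
    push Not at hle
    have : 0 ≤ (a ^ 2 - 4) * (a ^ 2 - 1) ^ 2 := mul_nonneg (by linarith) (sq_nonneg _)
    linarith
  have h3 : a ^ 2 ≠ 1 := by
    intro h3
    rw [h3] at h1
    norm_num at h1
    linarith
  set δ := Real.sqrt (12 - 3 * a ^ 2) with hδ
  have hδ2 : δ ^ 2 = 12 - 3 * a ^ 2 := Real.sq_sqrt (by linarith)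
  have hδ0 : 0 < δ := Real.sqrt_pos.2 (by linarith)
  have hset : {x : ℝ | x ^ 3 - 3 * x = c} = {a, (-a + δ) / 2, (-a - δ) / 2} := by
    ext x
    rw [Set.mem_ofPred_eq, Set.mem_insert_iff, Set.mem_insert_iff, Set.mem_singleton_iff,
      roots_eq ha, ← hδ2]
    apply or_congr Iff.rfl
    rw [sq_eq_sq_iff_eq_or_eq_neg]
    constructor
    · rintro (h4 | h4)
      · left; linarith
      · right; linarith
    · rintro (h4 | h4)
      · left; linarith
      · right; linarith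
  rw [hset, Set.ncard_insert_of_notMem, Set.ncard_pair]
  · intro h4
    linarith
  · rw [Set.mem_insert_iff, Set.mem_singleton_iff]
    rintro (h4 | h4)
    · have h5 : δ = 3 * a := by linarith
      rw [h5] at hδ2
      apply h3
      linarith
    · have h5 : δ = -(3 * a) := by linarith
      rw [h5] at hδ2
      apply h3
      linarith

end Pool.Agent.LeoC.H68
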