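import Mathlib
import Pool.Agent.LeoC.CorStmts
import Pool.Agent.Helper68_LeoC.Com
import Pool.Agent.Helper68_LeoC.Roots

/-!
# The signature of the cubic extensions of the family

MP_5f2860_nt.
-/

set_option autoImplicit false
set_option linter.unusedSectionVars false

open Module NumberField NumberField.InfinitePlace NumberField.mixedEmbedding Polynomial

open scoped Classical

namespace Pool.Agent.LeoC.H68

variable {k K : Type} [Field k] [NumberField k] [Field K] [NumberField K] [Algebra k K]

/-- ring homomorphisms of `K` are determined by the values on `k` and at `θ`. -/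
lemma hom_ext {m t s : k} {θ : K} (h : Cub m t s θ) {R : Type} [Field R] {φ ψ : K →+* R}
    (h1 : φ.comp (algebraMap k K) = ψ.comp (algebraMap k K)) (h2 : φ θ = ψ θ) : φ = ψ := by
  obtain ⟨b, hb⟩ := h.exists_basis
  have h0 : ∀ x : k, φ (algebraMap k K x) = ψ (algebraMap k K x) := fun x =>
    congrArg (fun g : k →+* R => g x) h1
  have h3 : φ (psi m s θ) = ψ (psi m s θ) := by
    rw [psi]
    simp only [map_div₀, map_neg, map_mul, map_sub, map_pow, map_one, h0, h2]
  ext x
  rw [← b.sum_repr x, map_sum, map_sum]
  apply Finset.sum_congr rfl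
  intro i _
  rw [Algebra.smul_def, map_mul, map_mul, h0, hb]
  fin_cases i
  · simp
  · simp [h2]
  · simp [h3]

/-- The polynomial has no root, hence is irreducible. -/
lemma irr_of {t : k} (hn : ∀ x : k, x ^ 3 - 3 * x ≠ t) : (X ^ 3 - 3 * X - C t : k[X]).Monic ∧
    (X ^ 3 - 3 * X - C t : k[X]).natDegree = 3 ∧ Irreducible (X ^ 3 - 3 * X - C t : k[X]) := by
  have hpn : (X ^ 3 - 3 * X - C t : k[X]).natDegree = 3 := by compute_degree!
  have hpm : (X ^ 3 - 3 * X - C t : k[X]).Monic := by monicity!
  refine ⟨hpm, hpn, ?_⟩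
  rw [Polynomial.Monic.irreducible_iff_roots_eq_zero_of_degree_le_three hpm (by omega) (by omega)]
  rw [Multiset.eq_zero_iff_forall_notMem]
  intro y hy
  rw [mem_roots hpm.ne_zero, IsRoot] at hy
  simp only [eval_sub, eval_mul, eval_pow, eval_X, eval_C, eval_ofNat] at hy
  exact hn y (sub_eq_zero.1 hy)

/-- existence of homomorphisms. -/
lemma exists_hom {m t s : k} {θ : K} (h : Cub m t s θ) {R : Type} [Field R] (σ : k →+* R) {x : R}
    (hx : x ^ 3 - 3 * x = σ t) : ∃ φ : K →+* R, φ.comp (algebraMap k K) = σ ∧ φ θ = x := by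
  obtain ⟨hpm, hpn, hirr⟩ := irr_of h.nr
  have hint : IsIntegral k θ := Algebra.IsIntegral.isIntegral θ
  have hmink : minpoly k θ = X ^ 3 - 3 * X - C t := by
    symm
    apply minpoly.eq_of_irreducible_of_monic hirr _ hpm
    simp only [map_sub, map_mul, map_pow, aeval_X, aeval_C, map_ofNat]
    rw [h.root, sub_self]
  have htop : Algebra.adjoin k {θ} = ⊤ := by
    have h5 : IntermediateField.adjoin k {θ} = ⊤ := by
      apply IntermediateField.eq_of_le_of_finrank_eq le_top
      rw [IntermediateField.adjoin.finrank hint, hmink, IntermediateField.finrank_top', h.deg, hpn]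
    rw [← IntermediateField.adjoin_simple_toSubalgebra_of_isAlgebraic
      (Algebra.IsAlgebraic.isAlgebraic θ), h5, IntermediateField.top_toSubalgebra]
  let _ : Algebra k R := σ.toAlgebra
  set pb := PowerBasis.ofAdjoinEqTop hint htop with hpb
  have hgen : pb.gen = θ := PowerBasis.ofAdjoinEqTop_gen hint htop
  have hy : aeval x (minpoly k pb.gen) = 0 := by
    rw [hgen, hmink]
    simp only [map_sub, map_mul, map_pow, aeval_X, aeval_C, map_ofNat]
    rw [hx]
    exact sub_self _
  refine ⟨(pb.lift x hy).toRingHom, ?_, ?_⟩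
  · ext y
    exact (pb.lift x hy).commutes y
  · have h7 := pb.lift_gen x hy
    exact (congrArg (pb.lift x hy) hgen.symm).trans h7

/-- The real places of `K`. -/
noncomputable def plMap (t : k) (θ : K) (hθ : θ ^ 3 - 3 * θ = algebraMap k K t)
    (W : {W : InfinitePlace K // IsReal W}) :
    Σ w : {w : InfinitePlace k // IsReal w},
      {x : ℝ // x ^ 3 - 3 * x = embedding_of_isReal w.2 t} :=
  ⟨⟨W.1.comap (algebraMap k K), IsReal.comap _ W.2⟩, ⟨embedding_of_isReal W.2 θ, by
    have h1 := congrArg (embedding_of_isReal W.2) hθ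
    rw [map_sub, map_mul, map_pow, map_ofNat] at h1
    rw [h1]
    have h2 := comap_embedding_of_isReal (algebraMap k K) (w := W.1) (IsReal.comap _ W.2)
    apply Complex.ofReal_injective
    rw [embedding_of_isReal_apply, embedding_of_isReal_apply, h2]
    rfl⟩⟩

lemma plMap_bij {m t s : k} {θ : K} (h : Cub m t s θ) :
    Function.Bijective (plMap t θ h.root) := by
  constructor
  · rintro ⟨W, hW⟩ ⟨W', hW'⟩ heq
    have h1 : W.comap (algebraMap k K) = W'.comap (algebraMap k K) :=
      congrArg (fun p => p.1.1) heq
    have h2 : embedding_of_isReal hW θ = embedding_of_isReal hW' θ :=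
      congrArg (fun p => p.2.1) heq
    apply Subtype.ext
    have h3 : W.embedding = W'.embedding := by
      apply hom_ext h
      · rw [← comap_embedding_of_isReal _ (IsReal.comap _ hW), h1,
          comap_embedding_of_isReal _ (IsReal.comap _ hW')]
      · rw [← embedding_of_isReal_apply hW, h2, embedding_of_isReal_apply hW']
    exact (mk_embedding W).symm.trans ((congrArg InfinitePlace.mk h3).trans (mk_embedding W'))
  · rintro ⟨⟨w, hw⟩, ⟨x, hx⟩⟩
    obtain ⟨φ, hφ1, hφ2⟩ := exists_hom h (embedding_of_isReal hw) hx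
    have hreal : ComplexEmbedding.IsReal (Complex.ofRealHom.comp φ) := by
      rw [ComplexEmbedding.isReal_iff]
      ext y
      simp
    have hW : IsReal (InfinitePlace.mk (Complex.ofRealHom.comp φ)) := ⟨_, hreal, rfl⟩
    have hemb : (InfinitePlace.mk (Complex.ofRealHom.comp φ)).embedding = Complex.ofRealHom.comp φ :=
      embedding_mk_eq_of_isReal hreal
    have hc : (InfinitePlace.mk (Complex.ofRealHom.comp φ)).comap (algebraMap k K) = w := by
      rw [comap_mk, RingHom.comp_assoc, hφ1]
      have h5 : Complex.ofRealHom.comp (embedding_of_isReal hw) = w.embedding := by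
        ext y
        exact embedding_of_isReal_apply hw y
      rw [h5, mk_embedding]
    refine ⟨⟨_, hW⟩, ?_⟩
    have hv : embedding_of_isReal hW θ = x := by
      apply Complex.ofReal_injective
      rw [embedding_of_isReal_apply, hemb, RingHom.comp_apply, hφ2]
      rfl
    subst hc
    rw [plMap]
    simp only [hv]

/-- **SIG3**. -/
theorem sig3 {m t s : k} {θ : K} (h : Cub m t s θ) {N : Set {w : InfinitePlace k // IsReal w}}
    (hN : Sgn N (mixedEmbedding k m)) :
    nrRealPlaces K + 2 * N.ncard = 3 * nrRealPlaces k ∧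
      nrComplexPlaces K = 3 * nrComplexPlaces k + N.ncard := by
  have h1 : Nat.card {W : InfinitePlace K // IsReal W} =
      Nat.card (Σ w : {w : InfinitePlace k // IsReal w},
        {x : ℝ // x ^ 3 - 3 * x = embedding_of_isReal w.2 t}) :=
    Nat.card_congr (Equiv.ofBijective _ (plMap_bij h))
  have hcard : ∀ w : {w : InfinitePlace k // IsReal w},
      Nat.card {x : ℝ // x ^ 3 - 3 * x = embedding_of_isReal w.2 t} = if w ∈ N then 1 else 3 := by
    intro w
    have h2 : embedding_of_isReal w.2 t ^ 2 + embedding_of_isReal w.2 m *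
        embedding_of_isReal w.2 s ^ 2 = 4 := by
      have := congrArg (embedding_of_isReal w.2) h.rel
      simpa only [map_add, map_mul, map_pow, map_ofNat] using this
    have h3 : (mixedEmbedding k m).1 w = embedding_of_isReal w.2 m :=
      mixedEmbedding_apply_isReal _ _ _
    have h4 : embedding_of_isReal w.2 s ≠ 0 := by
      rw [Ne, map_eq_zero]; exact h.s0
    have h5 : 0 < embedding_of_isReal w.2 s ^ 2 := by positivity
    have h6 : Nat.card {x : ℝ // x ^ 3 - 3 * x = embedding_of_isReal w.2 t} =
        {x : ℝ | x ^ 3 - 3 * x = embedding_of_isReal w.2 t}.ncard := rfl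
    rw [h6]
    split_ifs with hw
    · have h7 := (hN.1 w).1 hw
      rw [h3] at h7
      apply ncard_one
      nlinarith
    · have h7 := (hN.1 w).2 hw
      rw [h3] at h7
      apply ncard_three
      nlinarith
  have hfin : ∀ w : {w : InfinitePlace k // IsReal w},
      Finite {x : ℝ // x ^ 3 - 3 * x = embedding_of_isReal w.2 t} := by
    intro w
    apply Nat.finite_of_card_ne_zero
    rw [hcard]
    split_ifs <;> norm_num
  rw [Nat.card_sigma, Finset.sum_congr rfl fun w _ => hcard w, Finset.sum_ite] at h1
  simp only [Finset.sum_const, smul_eq_mul, mul_one] at h1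
  have h2 : (Finset.univ.filter fun w => w ∈ N).card = N.ncard := by
    rw [Set.ncard_eq_toFinset_card']
    congr 1
    ext w
    simp
  have h3 : (Finset.univ.filter fun w => w ∈ N).card + (Finset.univ.filter fun w => ¬ w ∈ N).card =
      nrRealPlaces k := by
    rw [Finset.card_filter_add_card_filter_not]
    rfl
  have h4 : Nat.card {W : InfinitePlace K // IsReal W} = nrRealPlaces K := by
    rw [Nat.card_eq_fintype_card]
  rw [h4] at h1
  have h7 := card_add_two_mul_card_eq_rank k
  have h8 := card_add_two_mul_card_eq_rank K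
  have h9 : finrank ℚ K = finrank ℚ k * 3 := by rw [← finrank_mul_finrank ℚ k K, h.deg]
  constructor <;> omega

end Pool.Agent.LeoC.H68
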