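import Mathlib
import Pool.Agent.Helper68_LeoC.Com
import Pool.Agent.Helper2_LeoK.Inh

/-!
# Relative units of `k(√-m)` which are not cubes

MP_5f2860_nt.
-/

set_option autoImplicit false
set_option linter.unusedSectionVars false

open Module NumberField NumberField.InfinitePlace

namespace Pool.Agent.LeoC.H68

/-- A unit of large absolute value at one place and of small absolute value at another place. -/
lemma exists_unit_gt {F : Type} [Field F] [NumberField F] {φ ψ : F →+* ℂ}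
    (h : InfinitePlace.mk ψ ≠ InfinitePlace.mk φ) :
    ∃ u : (𝓞 F)ˣ, 1 < ‖φ ((u : 𝓞 F) : F)‖ ∧ ‖ψ ((u : 𝓞 F) : F)‖ < 1 := by
  obtain ⟨u, hu⟩ := Units.dirichletUnitTheorem.exists_unit F (InfinitePlace.mk φ)
  have hu0 : ((u : 𝓞 F) : F) ≠ 0 := Units.coe_ne_zero u
  have hsmall : ∀ w : InfinitePlace F, w ≠ InfinitePlace.mk φ → w ((u : 𝓞 F) : F) < 1 := by
    intro w hw
    have h1 := hu w hw
    have h2 : 0 < w ((u : 𝓞 F) : F) := by
      have := (map_ne_zero w).2 hu0
      exact lt_of_le_of_ne (apply_nonneg w _) this.symm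
    by_contra h3
    push Not at h3
    exact absurd (Real.log_nonneg h3) (not_le.2 h1)
  refine ⟨u, ?_, ?_⟩
  · by_contra hle
    push Not at hle
    have hsum := Units.sum_mult_mul_log u
    have hlt : ∑ w : InfinitePlace F, (w.mult : ℝ) * Real.log (w ((u : 𝓞 F) : F)) < 0 := by
      apply Finset.sum_neg'
      · intro w _
        apply mul_nonpos_of_nonneg_of_nonpos (by positivity)
        by_cases hw : w = InfinitePlace.mk φ
        · rw [hw]
          apply Real.log_nonpos (apply_nonneg _ _)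
          rw [InfinitePlace.apply]
          exact hle
        · exact (hu w hw).le
      · refine ⟨InfinitePlace.mk ψ, Finset.mem_univ _, ?_⟩
        apply mul_neg_of_pos_of_neg
        · have := (InfinitePlace.mk ψ).mult_pos
          exact_mod_cast this
        · exact hu _ h
    exact hlt.ne hsum
  · have := hsmall _ h
    rwa [InfinitePlace.apply] at this

/-- A relative unit which is not a cube. -/
lemma exists_noncube {F : Type} [Field F] [NumberField F] (f : F →+* F) (φ : F →+* ℂ) (v : F)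
    (hv : IsIntegral ℤ v) (hv1 : v * f v = 1) (hvφ : 1 < ‖φ v‖)
    (hN : ∀ y : F, (y * f y) ^ 3 = 1 → y * f y = 1) :
    ∃ x : F, IsIntegral ℤ x ∧ x * f x = 1 ∧ 1 < ‖φ x‖ ∧ ∀ y : F, y ^ 3 ≠ x := by
  obtain ⟨B₀, hB₀⟩ := (Set.finite_range fun χ : F →+* ℂ => ‖χ v‖).bddAbove
  set B : ℝ := max 1 B₀ with hB
  have hB1 : 1 ≤ B := le_max_left _ _
  have hvB : ∀ χ : F →+* ℂ, ‖χ v‖ ≤ B := fun χ =>
    (hB₀ ⟨χ, rfl⟩).trans (le_max_right _ _)
  have hfin := Embeddings.finite_of_norm_le F ℂ B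
  set S : Set F := {x | (IsIntegral ℤ x ∧ ∀ χ : F →+* ℂ, ‖χ x‖ ≤ B) ∧ x * f x = 1 ∧ 1 < ‖φ x‖} with hS
  have hSfin : S.Finite := hfin.subset fun x hx => hx.1
  obtain ⟨x, hx, hmin⟩ := Set.exists_min_image S (fun x => ‖φ x‖) hSfin ⟨v, ⟨hv, hvB⟩, hv1, hvφ⟩
  obtain ⟨⟨hx1, hx2⟩, hx3, hx4⟩ := hx
  refine ⟨x, hx1, hx3, hx4, ?_⟩
  intro y hy
  have hcube : ∀ χ : F →+* ℂ, ‖χ y‖ ^ 3 = ‖χ x‖ := by
    intro χ
    rw [← hy, map_pow, norm_pow]
  have hy1 : y * f y = 1 := by
    apply hN
    rw [mul_pow, ← map_pow, hy, hx3]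
  have hyφ : 1 < ‖φ y‖ := by
    by_contra hle
    push Not at hle
    have := pow_le_one₀ (norm_nonneg (φ y)) hle (n := 3)
    rw [hcube] at this
    linarith
  have hmem : y ∈ S := by
    refine ⟨⟨?_, ?_⟩, hy1, hyφ⟩
    · have : IsIntegral ℤ (y ^ 3) := by rw [hy]; exact hx1
      exact this.of_pow (by norm_num)
    · intro χ
      by_contra hlt
      push Not at hlt
      have h1 : 1 ≤ ‖χ y‖ := hB1.trans hlt.le
      have h2 : ‖χ y‖ ≤ ‖χ y‖ ^ 3 := le_self_pow₀ h1 (by norm_num)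
      rw [hcube] at h2
      have := hx2 χ
      linarith
  have h1 := hmin y hmem
  rw [← hcube] at h1
  have h2 : ‖φ y‖ ^ 1 < ‖φ y‖ ^ 3 := pow_lt_pow_right₀ hyφ (by norm_num)
  rw [pow_one] at h2
  linarith

/-- **UNI**: the parameters. -/
theorem exists_param (k : Type) [Field k] [NumberField k] (m : 𝓞 k)
    (hm : ∀ x : k, x ^ 2 ≠ -(m : k)) (hcr : ∀ x : k, x ^ 3 = 1 → x = 1) (φ₀ : k →+* ℂ)
    (hφ₀ : ComplexEmbedding.IsReal φ₀ → (φ₀ m).re < 0) :
    ∃ (t : 𝓞 k) (s : k), (t : k) ^ 2 + (m : k) * s ^ 2 = 4 ∧ s ≠ 0 ∧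
      ∀ x : k, x ^ 3 - 3 * x ≠ (t : k) := by
  -- the field
  have hsq : ¬ IsSquare (-(m : k)) := by
    rintro ⟨x, hx⟩
    exact hm x (by rw [pow_two, ← hx])
  obtain ⟨F, _, _, _, r, h2, hr⟩ := Pool.Agent.LEO4.H59.exists_quad k _ hsq
  have hfd : FiniteDimensional k F := FiniteDimensional.of_finrank_pos (by omega)
  have hrk : ∀ x : k, algebraMap k F x ≠ r := by
    intro x hx
    apply hm x
    apply (algebraMap k F).injective
    rw [map_pow, hx, hr]
  have hm0 : (m : k) ≠ 0 := by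
    intro h0
    apply hm 0
    rw [h0]
    ring
  have hr0 : r ≠ 0 := by
    intro h0
    apply hrk 0
    rw [h0, map_zero]
  -- the conjugation
  obtain ⟨f, hf⟩ := quad_lift (E := F) h2 hr (fun x hx => hm x hx) (r' := -r) (by rw [neg_sq, hr])
  have hff : ∀ x : F, f (f x) = x := by
    intro x
    obtain ⟨a, b, rfl⟩ := Pool.Agent.LeoK.H2.quad_span' h2 hrk x
    simp [hf]
  -- an embedding
  obtain ⟨φ, hφ⟩ : ∃ φ : F →+* ℂ, φ.comp (algebraMap k F) = φ₀ := by
    let _ : Algebra k ℂ := φ₀.toAlgebra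
    let g : F →ₐ[k] ℂ := IsAlgClosed.lift
    exact ⟨g.toRingHom, RingHom.ext fun x => g.commutes x⟩
  have hne : InfinitePlace.mk (φ.comp (f : F →+* F)) ≠ InfinitePlace.mk φ := by
    rw [Ne, mk_eq_iff]
    rintro (h3 | h3)
    · have h4 := congrArg (fun g : F →+* ℂ => g r) h3
      simp only [RingHom.comp_apply, RingHom.coe_coe, hf, map_neg] at h4
      have h5 : φ r = 0 := by
        have : (2 : ℂ) * φ r = 0 := by linear_combination -h4
        exact (mul_eq_zero.1 this).resolve_left two_ne_zero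
      exact hr0 ((map_eq_zero φ).1 h5)
    · have hreal : ComplexEmbedding.IsReal φ₀ := by
        rw [ComplexEmbedding.isReal_iff, ← hφ]
        ext x
        have h4 := congrArg (fun g : F →+* ℂ => g (algebraMap k F x)) h3
        simp only [ComplexEmbedding.conjugate_coe_eq, RingHom.comp_apply, RingHom.coe_coe,
          AlgHom.commutes] at h4 ⊢
        exact h4
      have h5 := hφ₀ hreal
      have h4 := congrArg (fun g : F →+* ℂ => g r) h3
      simp only [ComplexEmbedding.conjugate_coe_eq, RingHom.comp_apply, RingHom.coe_coe, hf,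
        map_neg] at h4
      have h6 : (φ r).re = 0 := by
        have := congrArg Complex.re h4
        simp only [Complex.neg_re, Complex.conj_re] at this
        linarith
      have h7 : φ r ^ 2 = -φ₀ m := by
        rw [← hφ, ← map_pow, hr, map_neg, map_neg, RingHom.comp_apply]
      have h8 := congrArg Complex.re h7
      rw [pow_two, Complex.mul_re, h6, Complex.neg_re] at h8
      nlinarith [mul_self_nonneg (φ r).im]
  obtain ⟨u, hu1, hu2⟩ := exists_unit_gt hne
  have hu0 : ((u : 𝓞 F) : F) ≠ 0 := Units.coe_ne_zero u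
  have hfu0 : f ((u : 𝓞 F) : F) ≠ 0 := by rwa [Ne, map_eq_zero]
  -- the relative unit
  obtain ⟨x, hx1, hx2, hx3, hx4⟩ := exists_noncube (f : F →+* F) φ
    (((u : 𝓞 F) : F) * (f ((u : 𝓞 F) : F))⁻¹) (by
      apply IsIntegral.mul (RingOfIntegers.isIntegral_coe _)
      rw [← map_inv₀]
      have h3 : (((u : 𝓞 F) : F))⁻¹ = (((u⁻¹ : (𝓞 F)ˣ) : 𝓞 F) : F) := by
        apply inv_eq_of_mul_eq_one_right
        rw [← map_mul, Units.mul_inv, map_one]
      rw [h3]
      exact (RingOfIntegers.isIntegral_coe _).map (f : F →+* F).toIntAlgHom) (by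
      simp only [RingHom.coe_coe, map_mul, map_inv₀, hff]
      field_simp) (by
      simp only [map_mul, map_inv₀, norm_mul, norm_inv]
      have h3 : ‖φ (f ((u : 𝓞 F) : F))‖ < 1 := hu2
      have h4 : 0 < ‖φ (f ((u : 𝓞 F) : F))‖ := by
        rw [norm_pos_iff, Ne, map_eq_zero]
        exact hfu0
      rw [← div_eq_mul_inv, one_lt_div h4]
      linarith) (by
      intro y hy
      obtain ⟨a, b, hab⟩ := Pool.Agent.LeoK.H2.quad_span' h2 hrk y
      have h3 : y * f y = algebraMap k F (a ^ 2 + (m : k) * b ^ 2) := by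
        rw [hab]
        simp only [map_add, map_mul, map_pow, AlgHom.commutes, hf]
        have : r ^ 2 = -algebraMap k F (m : k) := by rw [hr, map_neg]
        linear_combination -(algebraMap k F b) ^ 2 * this
      simp only [RingHom.coe_coe] at hy ⊢
      rw [h3, ← map_pow, ← map_one (algebraMap k F)] at hy
      rw [h3, hcr _ ((algebraMap k F).injective hy), map_one])
  simp only [RingHom.coe_coe] at hx2
  obtain ⟨a, b, hab⟩ := Pool.Agent.LeoK.H2.quad_span' h2 hrk x
  have hrr : r ^ 2 = -algebraMap k F (m : k) := by rw [hr, map_neg]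
  have h1 : a ^ 2 + (m : k) * b ^ 2 = 1 := by
    apply (algebraMap k F).injective
    rw [map_one, ← hx2, hab]
    simp only [map_add, map_mul, map_pow, AlgHom.commutes, hf]
    linear_combination (algebraMap k F b) ^ 2 * hrr
  have htint : IsIntegral ℤ (2 * a) := by
    have h3 : algebraMap k F (2 * a) = x + f x := by
      rw [hab]
      simp only [map_add, map_mul, map_ofNat, AlgHom.commutes, hf]
      ring
    have h4 : IsIntegral ℤ (algebraMap k F (2 * a)) := by
      rw [h3]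
      exact hx1.add (hx1.map (f : F →+* F).toIntAlgHom)
    exact (isIntegral_algebraMap_iff (algebraMap k F).injective).1 h4
  have hb0 : b ≠ 0 := by
    rintro rfl
    rw [map_zero, zero_mul, add_zero] at hab
    rw [hab] at hx3
    have h3 : a ^ 2 = 1 := by linear_combination h1
    have h4 : ‖φ (algebraMap k F a)‖ ^ 2 = 1 := by
      rw [← norm_pow, ← map_pow, ← map_pow, h3, map_one, map_one, norm_one]
    nlinarith
  refine ⟨⟨2 * a, htint⟩, 2 * b, ?_, mul_ne_zero two_ne_zero hb0, ?_⟩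
  · change (2 * a) ^ 2 + (m : k) * (2 * b) ^ 2 = 4
    linear_combination 4 * h1
  · intro x₀ hx₀
    have hx₀' : x₀ ^ 3 - 3 * x₀ = 2 * a := hx₀
    have h3 : x₀ ^ 2 - 1 ≠ 0 := by
      intro h3
      have h4 : (2 * a) ^ 2 - 4 = (x₀ ^ 2 - 4) * (x₀ ^ 2 - 1) ^ 2 := by
        rw [← hx₀']; ring
      rw [h3] at h4
      have h5 : (m : k) * b ^ 2 = 0 := by
        have : (4 : k) * ((m : k) * b ^ 2) = 0 := by linear_combination 4 * h1 - h4
        exact (mul_eq_zero.1 this).resolve_left (by norm_num)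
      rcases mul_eq_zero.1 h5 with h6 | h6
      · exact hm0 h6
      · exact hb0 (pow_eq_zero_iff two_ne_zero |>.1 h6)
    have h4 : (x₀ ^ 2 - 4) * (x₀ ^ 2 - 1) ^ 2 = -(4 * ((m : k) * b ^ 2)) := by
      have : (2 * a) ^ 2 - 4 = (x₀ ^ 2 - 4) * (x₀ ^ 2 - 1) ^ 2 := by
        rw [← hx₀']; ring
      rw [← this]
      linear_combination 4 * h1
    apply hx4 ((algebraMap k F x₀ + algebraMap k F (2 * b / (x₀ ^ 2 - 1)) * r) / 2)
    have h5 : algebraMap k F (2 * b / (x₀ ^ 2 - 1)) * r * algebraMap k F (x₀ ^ 2 - 1) =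
        algebraMap k F (2 * b) * r := by
      rw [mul_right_comm, ← map_mul, div_mul_cancel₀ _ h3]
    set δ := algebraMap k F (2 * b / (x₀ ^ 2 - 1)) * r with hδ
    have h6 : δ ^ 2 = algebraMap k F (x₀ ^ 2 - 4) := by
      have h7 : (2 * b / (x₀ ^ 2 - 1)) ^ 2 * (-(m : k)) = x₀ ^ 2 - 4 := by
        rw [div_pow, div_mul_eq_mul_div, div_eq_iff (pow_ne_zero 2 h3), h4]
        ring
      rw [hδ, mul_pow, hr, ← map_pow, ← map_mul, h7]
    rw [hab]
    have h7 := congrArg (algebraMap k F) hx₀'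
    simp only [map_sub, map_mul, map_pow, map_ofNat, map_one] at h5 h6 h7
    have h8 : (2 : F) ≠ 0 := by
      have : (2 : F) = algebraMap k F 2 := (map_ofNat _ 2).symm
      rw [this, Ne, map_eq_zero]
      norm_num
    have h9 : (8 : F) * ((algebraMap k F x₀ + δ) / 2) ^ 3 =
        8 * (algebraMap k F a + algebraMap k F b * r) := by
      rw [div_pow]
      have : (8 : F) * ((algebraMap k F x₀ + δ) ^ 3 / 2 ^ 3) = (algebraMap k F x₀ + δ) ^ 3 := by
        field_simp
        ring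
      rw [this]
      linear_combination (3 * algebraMap k F x₀ + δ) * h6 + 4 * h7 + 4 * h5
    have h10 : (8 : F) ≠ 0 := by
      rw [show (8 : F) = 2 * 2 * 2 by norm_num]
      exact mul_ne_zero (mul_ne_zero h8 h8) h8
    exact mul_left_cancel₀ h10 h9

end Pool.Agent.LeoC.H68
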