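import Mathlib
import Pool.Agent.Helper68_LeoC.Good
import Pool.Agent.Helper68_LeoC.Uni
import Pool.Agent.Helper68_LeoC.Sig
import Pool.Agent.Helper68_LeoC.Core
import Pool.Agent.Helper59_LeoC.Cor
import Pool.Agent.Helper61_LeoG.Stg

/-!
# LEOC: cubic extensions, and fields of odd degree `3 ^ a`

MP_5f2860_nt.
-/

set_option autoImplicit false
set_option linter.unusedSectionVars false

open NumberField NumberField.InfinitePlace NumberField.mixedEmbedding IsDedekindDomain WithZero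
  Module Filter Polynomial
open Pool.Agent.Helper85_Leo Pool.Agent.Leo3 Pool.Agent.LeoK Pool.Agent.LeoG Pool.Agent.LeoC.H59

open scoped Classical

namespace Pool.Agent.LeoC.H68

/-- `K / k` is a cubic extension of number fields, over the real places of `N` there is one real
and one complex place of `K`, and over the other real places there are three real places. -/
structure CubN {k : Type} [Field k] [NumberField k] (N : Set {w : InfinitePlace k // IsReal w})
    (K : Type) [Field K] [NumberField K] [Algebra k K] : Prop where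
  deg : finrank k K = 3
  real : nrRealPlaces K + 2 * N.ncard = 3 * nrRealPlaces k
  cplx : nrComplexPlaces K = 3 * nrComplexPlaces k + N.ncard

/-- no cube roots of unity. -/
lemma cr_of_noMu {k : Type} [Field k] [NumberField k] (h : NoMu k) (x : k) (hx : x ^ 3 = 1) :
    x = 1 := by
  let φ : k →+* Om := (IsAlgClosed.lift (R := ℚ) (S := k) (M := Om)).toRingHom
  have h1 := h φ (φ x) (fun ρ hρ => hρ x) (by rw [← map_pow, hx, map_one])
  apply φ.injective
  rw [h1, map_one]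

/-- an embedding at which `-m` is positive or which is not real. -/
lemma exists_emb {k : Type} [Field k] [NumberField k] {m : k}
    {N : Set {w : InfinitePlace k // IsReal w}} (hN : Sgn N (mixedEmbedding k m))
    (hu : 1 ≤ N.ncard + nrComplexPlaces k) :
    ∃ φ₀ : k →+* ℂ, ComplexEmbedding.IsReal φ₀ → (φ₀ m).re < 0 := by
  by_cases h : 1 ≤ nrComplexPlaces k
  · obtain ⟨⟨w, hw⟩⟩ : Nonempty {w : InfinitePlace k // IsComplex w} := by
      rw [← Fintype.card_pos_iff]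
      exact h
    refine ⟨w.embedding, fun h1 => ?_⟩
    exact absurd h1 (isComplex_iff.1 hw)
  · have h1 : N.ncard ≠ 0 := by omega
    obtain ⟨w, hw⟩ := Set.nonempty_of_ncard_ne_zero h1
    refine ⟨w.1.embedding, fun _ => ?_⟩
    have h2 := (hN.1 w).1 hw
    rw [mixedEmbedding_apply_isReal] at h2
    rw [← embedding_of_isReal_apply w.2, Complex.ofReal_re]
    exact h2

/-- the cubic field. -/
lemma exists_cubic {k : Type} [Field k] [NumberField k] {m t s : k} (h1 : t ^ 2 + m * s ^ 2 = 4)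
    (h2 : s ≠ 0) (h3 : m ≠ 0) (h4 : ∀ x : k, x ^ 3 - 3 * x ≠ t) :
    ∃ (K : Type) (_ : Field K) (_ : NumberField K) (_ : Algebra k K) (θ : K), Cub m t s θ := by
  obtain ⟨hpm, hpn, hirr⟩ := irr_of h4
  set p : k[X] := X ^ 3 - 3 * X - C t with hp
  have hfact : Fact (Irreducible p) := ⟨hirr⟩
  have hdeg : finrank k (AdjoinRoot p) = 3 := by
    rw [(AdjoinRoot.powerBasis hirr.ne_zero).finrank, AdjoinRoot.powerBasis_dim]
    exact hpn
  have hfin : FiniteDimensional k (AdjoinRoot p) := FiniteDimensional.of_finrank_pos (by omega)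
  have hNF : NumberField (AdjoinRoot p) := NumberField.of_module_finite k _
  refine ⟨AdjoinRoot p, inferInstance, hNF, inferInstance, AdjoinRoot.root _, hdeg, ?_, h1, h2, h3,
    h4⟩
  have h : eval₂ (AdjoinRoot.of p) (AdjoinRoot.root p) (X ^ 3 - 3 * X - C t) = 0 :=
    AdjoinRoot.eval₂_root p
  rw [eval₂_sub, eval₂_sub, eval₂_mul, eval₂_pow, eval₂_X, eval₂_C, sub_eq_zero,
    eval₂_ofNat] at h
  exact h

/-- **RELO**: cubic extensions. -/
theorem relo (hk : KccStmt) (hs : StgStmt) (hi : IngStmt) (hl : Leo3Stmt) (k : Type) [Field k]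
    [NumberField k] (N : Set {w : InfinitePlace k // IsReal w}) (hN : 1 ≤ un N) (hmu : NoMu k)
    (hw : W3 k) :
    ∃ c : ℝ, 0 < c ∧ ∀ᶠ X : ℝ in atTop,
      ∃ (I : Type) (_ : Fintype I) (K : I → Type) (_ : ∀ i, Field (K i))
        (_ : ∀ i, NumberField (K i)) (_ : ∀ i, Algebra k (K i)),
        c * X ≤ Fintype.card I ∧ (∀ i i', Nonempty (K i ≃+* K i') → i = i') ∧
        ∀ i, CubN N (K i) ∧ ((discr (K i)).natAbs : ℝ) ≤ X ∧
          NoMu (K i) ∧ W3 (K i) ∧ Tower3 (K i) := by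
  obtain ⟨c, B, hc, hev⟩ := hk k N
  obtain ⟨c', hc', h⟩ := core3 k c hc
    (fun m => AdmG k m ∧ Sgn N (mixedEmbedding k (m : k)) ∧ ¬ ∃ g : Q4 (𝓞 k), GIrr g ∧ mm g = m)
    (by
      filter_upwards [hev] with Z hZ
      obtain ⟨S, h1, h2, h3⟩ := hZ
      refine ⟨S, h1, fun m hm => ?_, h3⟩
      obtain ⟨h4, h5, h6, h7, h8⟩ := h2 m hm
      exact ⟨h6, h4, h5, h8⟩)
    (fun K _ _ _ => CubN N K ∧ NoMu K ∧ W3 K ∧ Tower3 K)
    (by
      rintro m ⟨hadm, hsgn, hform⟩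
      have hm1 : ∀ x : k, x ^ 2 ≠ -(m : k) := Pool.Agent.LeoG.H61.thn k m hadm.three
      have hm0 : (m : k) ≠ 0 := by
        intro h0
        apply hm1 0
        rw [h0]
        ring
      obtain ⟨φ₀, hφ₀⟩ := exists_emb hsgn hN
      obtain ⟨t, s, h1, h2, h3⟩ := exists_param k m hm1 (cr_of_noMu hmu) φ₀ hφ₀
      obtain ⟨K, _, _, _, θ, hcub⟩ := exists_cubic h1 h2 hm0 h3
      have hnsq : ¬ IsSquare (3 * (m : k)) := by
        rintro ⟨x, hx⟩
        exact hadm.nsq x (by rw [hx, pow_two])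
      obtain ⟨F, _, _, _, r, hF2, hr⟩ := Pool.Agent.LEO4.H59.exists_quad k _ hnsq
      obtain ⟨-, hgood⟩ := good_of hs hi k N F m r hF2 hr hadm hsgn hform
      obtain ⟨h10, h11, -, -⟩ := hgood.rat hmu hw
      obtain ⟨h12, h13⟩ := good_cubic hcub hF2 hr hadm.nsq h10 h11
      obtain ⟨h14, h15⟩ := sig3 hcub hsgn
      exact ⟨K, inferInstance, inferInstance, inferInstance, t, s, θ, hcub,
        ⟨hcub.deg, h14, h15⟩, h12, h13, tower_of hl h12 h13⟩)
  refine ⟨c', hc', ?_⟩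
  filter_upwards [h] with X hX
  obtain ⟨I, hI, K, hF, hNF, hA, h1, h2, h3⟩ := hX
  exact ⟨I, hI, K, hF, hNF, hA, h1, h2, fun i => ⟨(h3 i).2.2.1, (h3 i).2.1, (h3 i).2.2.2⟩⟩

/-- A set of real places of given size. -/
lemma exists_places' (k : Type) [Field k] [NumberField k] (t : ℕ)
    (ht : t ≤ nrRealPlaces k) : ∃ N : Set {w : InfinitePlace k // IsReal w}, N.ncard = t := by
  obtain ⟨s, -, hs⟩ := Finset.exists_subset_card_eq
    (s := (Finset.univ : Finset {w : InfinitePlace k // IsReal w})) (n := t)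
    (by rw [Finset.card_univ]; exact ht)
  exact ⟨(s : Set _), by rw [Set.ncard_coe_finset, hs]⟩

/-- Galois extensions of odd degree are totally real. -/
lemma cplx_zero {K : Type} [Field K] [NumberField K] (h : IsGalois ℚ K) (ho : Odd (finrank ℚ K)) :
    nrComplexPlaces K = 0 := by
  rw [nrComplexPlaces_eq_zero_iff]
  refine ⟨fun v => ?_⟩
  have := IsUnramifiedAtInfinitePlaces_of_odd_finrank (k := ℚ) (K := K) ho
  have h4 := IsUnramifiedAtInfinitePlaces.isUnramified (k := ℚ) v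
  rw [InfinitePlace.isUnramified_iff] at h4
  rcases h4 with h4 | h4
  · exact h4
  · exact absurd h4 (by
      rw [InfinitePlace.not_isComplex_iff_isReal]
      exact IsTotallyReal.isReal _)

/-- **TOWO**: for every odd degree `3 ^ a` and every signature of this degree which is not totally
real at least `c X` non-abelian fields of discriminant at most `X` such that Leopoldt's conjecture
at 3 holds for the field and for all its Galois extensions of 3-power degree unramified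
outside 3. -/
def TowoStmt : Prop :=
  ∀ a r₁ r₂ : ℕ, 1 ≤ r₂ → r₁ + 2 * r₂ = 3 ^ a → ∃ c : ℝ, 0 < c ∧ ∀ᶠ X : ℝ in atTop,
    ∃ (I : Type) (_ : Fintype I) (K : I → Type) (_ : ∀ i, Field (K i))
      (_ : ∀ i, NumberField (K i)),
      c * X ≤ Fintype.card I ∧ (∀ i i', Nonempty (K i ≃+* K i') → i = i') ∧
      ∀ i, nrRealPlaces (K i) = r₁ ∧ nrComplexPlaces (K i) = r₂ ∧
        ((discr (K i)).natAbs : ℝ) ≤ X ∧ ¬ IsAbelianGalois ℚ (K i) ∧
        NoMu (K i) ∧ W3 (K i) ∧ Tower3 (K i)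

theorem towo_step (hk : KccStmt) (hs : StgStmt) (hi : IngStmt) (hl : Leo3Stmt) (a r₁ r₂ : ℕ)
    (h2 : 1 ≤ r₂) (hn : r₁ + 2 * r₂ = 3 ^ (a + 1))
    (hbase : ∀ r₁ r₂ : ℕ, r₁ + 2 * r₂ = 3 ^ a → ∃ (k : Type) (_ : Field k) (_ : NumberField k),
      nrRealPlaces k = r₁ ∧ nrComplexPlaces k = r₂ ∧ NoMu k ∧ W3 k) :
    ∃ c : ℝ, 0 < c ∧ ∀ᶠ X : ℝ in atTop,
    ∃ (I : Type) (_ : Fintype I) (K : I → Type) (_ : ∀ i, Field (K i))
      (_ : ∀ i, NumberField (K i)),
      c * X ≤ Fintype.card I ∧ (∀ i i', Nonempty (K i ≃+* K i') → i = i') ∧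
      ∀ i, nrRealPlaces (K i) = r₁ ∧ nrComplexPlaces (K i) = r₂ ∧
        ((discr (K i)).natAbs : ℝ) ≤ X ∧ ¬ IsAbelianGalois ℚ (K i) ∧
        NoMu (K i) ∧ W3 (K i) ∧ Tower3 (K i) := by
  obtain ⟨k, _, _, hk1, hk2, hmu, hw⟩ := hbase (3 ^ a - 2 * (r₂ / 3)) (r₂ / 3) (by
    have : 2 * (r₂ / 3) ≤ 3 ^ a := by
      rw [pow_succ] at hn
      omega
    omega)
  rw [pow_succ] at hn
  obtain ⟨N, hN⟩ := exists_places' k (r₂ % 3) (by rw [hk1]; omega)
  obtain ⟨c, hc, h⟩ := relo hk hs hi hl k N (by rw [un, hN, hk2]; omega) hmu hw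
  refine ⟨c, hc, ?_⟩
  filter_upwards [h] with X hX
  obtain ⟨I, hI, K, hF, hNF, hA, h3, h4, h5⟩ := hX
  refine ⟨I, hI, K, hF, hNF, h3, h4, fun i₀ => ?_⟩
  obtain ⟨⟨h6, h7, h8⟩, h9, h10, h11, h12⟩ := h5 i₀
  rw [hN, hk1] at h7
  rw [hN, hk2] at h8
  have h13 : nrComplexPlaces (K i₀) = r₂ := by omega
  refine ⟨by omega, h13, h9, fun hab => ?_, h10, h11, h12⟩
  have h14 : IsGalois ℚ (K i₀) := inferInstance
  have h15 : finrank ℚ (K i₀) = 3 ^ (a + 1) := by
    have := card_add_two_mul_card_eq_rank (K i₀)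
    rw [pow_succ]
    omega
  have h16 := cplx_zero h14 (by rw [h15]; exact Odd.pow (by decide))
  omega

/-- base fields. -/
lemma exists_base3 (hk : KccStmt) (hs : StgStmt) (hi : IngStmt) (hl : Leo3Stmt) (a : ℕ) :
    ∀ r₁ r₂ : ℕ, r₁ + 2 * r₂ = 3 ^ a → ∃ (k : Type) (_ : Field k) (_ : NumberField k),
      nrRealPlaces k = r₁ ∧ nrComplexPlaces k = r₂ ∧ NoMu k ∧ W3 k := by
  induction a with
  | zero =>
    intro r₁ r₂ hn
    rw [pow_zero] at hn
    have h1 := card_add_two_mul_card_eq_rank ℚ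
    rw [finrank_self] at h1
    exact ⟨ℚ, inferInstance, inferInstance, by omega, by omega, Pool.Agent.LeoK.H59.nomuq,
      Pool.Agent.LeoK.H59.w3q⟩
  | succ a ih =>
    intro r₁ r₂ hn
    by_cases h2 : 1 ≤ r₂
    · obtain ⟨c, hc, h⟩ := towo_step hk hs hi hl a r₁ r₂ h2 hn ih
      obtain ⟨X, hX, hX1⟩ := (h.and (eventually_ge_atTop (1 : ℝ))).exists
      obtain ⟨I, hI, K, hF, hNF, h1, -, h3⟩ := hX
      have hne : Nonempty I := by
        rw [← Fintype.card_pos_iff]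
        have : (0 : ℝ) < Fintype.card I := lt_of_lt_of_le (by positivity) h1
        exact_mod_cast this
      obtain ⟨i₀⟩ := hne
      obtain ⟨h4, h5, -, -, h6, h7, -⟩ := h3 i₀
      exact ⟨K i₀, hF i₀, hNF i₀, h4, h5, h6, h7⟩
    · obtain ⟨F, _, _, hG, hd, hreal, hun⟩ := exists_cyc (a + 1)
      obtain ⟨hmu, hw⟩ := Pool.Agent.LeoK.H19.gup3 ℚ F (a + 1) hd hun Pool.Agent.LeoK.H59.nomuq
        Pool.Agent.LeoK.H59.w3q
      have h1 := card_add_two_mul_card_eq_rank F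
      have h3 : nrComplexPlaces F = 0 := nrComplexPlaces_eq_zero_iff.2 hreal
      exact ⟨F, inferInstance, inferInstance, by omega, by omega, hmu, hw⟩

/-- **TOWO**. -/
theorem towo (hk : KccStmt) (hs : StgStmt) (hi : IngStmt) (hl : Leo3Stmt) : TowoStmt := by
  intro a r₁ r₂ h2 hn
  obtain _ | a := a
  · rw [pow_zero] at hn
    omega
  · exact towo_step hk hs hi hl a r₁ r₂ h2 hn (exists_base3 hk hs hi hl a)

/-- **TOWALL**: all degrees `n = 2 ^ j * 3 ^ a > 1` and all signatures of degree `n`, except for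
the totally real ones when `n` is odd. -/
def TowallStmt : Prop :=
  ∀ j a r₁ r₂ : ℕ, 1 < 2 ^ j * 3 ^ a → (j = 0 → r₂ ≠ 0) → r₁ + 2 * r₂ = 2 ^ j * 3 ^ a →
    ∃ c : ℝ, 0 < c ∧ ∀ᶠ X : ℝ in atTop,
    ∃ (I : Type) (_ : Fintype I) (K : I → Type) (_ : ∀ i, Field (K i))
      (_ : ∀ i, NumberField (K i)),
      c * X ≤ Fintype.card I ∧ (∀ i i', Nonempty (K i ≃+* K i') → i = i') ∧
      ∀ i, nrRealPlaces (K i) = r₁ ∧ nrComplexPlaces (K i) = r₂ ∧
        ((discr (K i)).natAbs : ℝ) ≤ X ∧ (2 < r₁ + 2 * r₂ → ¬ IsAbelianGalois ℚ (K i)) ∧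
        NoMu (K i) ∧ W3 (K i) ∧ Tower3 (K i)

/-- **TOWALL**. -/
theorem towall (hr : RelcStmt) (ho : TowoStmt) : TowallStmt := by
  intro j a r₁ r₂ h1 h2 hn
  obtain _ | j := j
  · rw [pow_zero, one_mul] at hn
    obtain ⟨c, hc, h⟩ := ho a r₁ r₂ (Nat.one_le_iff_ne_zero.2 (h2 rfl)) hn
    refine ⟨c, hc, ?_⟩
    filter_upwards [h] with X hX
    obtain ⟨I, hI, K, hF, hNF, h3, h4, h5⟩ := hX
    refine ⟨I, hI, K, hF, hNF, h3, h4, fun i₀ => ?_⟩
    obtain ⟨h6, h7, h8, h9, h10⟩ := h5 i₀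
    exact ⟨h6, h7, h8, fun _ => h9, h10⟩
  · exact towc hr (j + 1) a r₁ r₂ (by omega) hn

end Pool.Agent.LeoC.H68
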