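import Pool.Agent.LeoC.Asm
import Pool.Agent.Helper68_LeoC.TowO

/-!
# Cubic extensions: the final statements without hypotheses

MP_5f2860_nt.
-/

set_option autoImplicit false

namespace Pool.Agent.LeoC.H68

theorem towo_all : TowoStmt := towo LeoC.Asm.kcc LeoC.Asm.stg LeoC.Asm.ing LeoC.Asm.leo3

theorem towall_all : TowallStmt := towall LeoC.Asm.relc towo_all

end Pool.Agent.LeoC.H68
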